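import Mathlib

/-!
# Finitely generated fields of characteristic zero have finitely many roots of unity
-/

set_option autoImplicit false

namespace Pool.Agent.J4.H41.PA

/-- the roots of unity are bounded -/
def Few (k : Type) [Field k] (n : ℕ) : Prop :=
  ∀ S : Finset k, (∀ x ∈ S, ∃ m, 0 < m ∧ x ^ m = 1) → S.card ≤ n

open scoped IntermediateField.algebraAdjoinAdjoin in
open MvPolynomial in
/-- powers of a root of unity are linearly independent over purely transcendental extensions -/
theorem tot_le {K : Type} [Field K] [CharZero K] (s : Set K)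
    (hs : AlgebraicIndependent ℚ (Subtype.val : s → K))
    [Module.Finite (IntermediateField.adjoin ℚ s) K] (ζ : K) (m : ℕ) (hm : 0 < m)
    (hζ : IsPrimitiveRoot ζ m) :
    m.totient ≤ Module.finrank (IntermediateField.adjoin ℚ s) K := by
  have hint : IsIntegral ℚ ζ := (hζ.isIntegral hm).tower_top
  have : Algebra.IsAlgebraic ℚ (IntermediateField.adjoin ℚ {ζ}) :=
    IntermediateField.isAlgebraic_adjoin_simple hint
  have hF := hs.extendScalars (IntermediateField.adjoin ℚ {ζ})
  set F := IntermediateField.adjoin ℚ {ζ} with hFdef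
  have hdeg : (minpoly ℚ ζ).natDegree = m.totient := by
    rw [← Polynomial.cyclotomic_eq_minpoly_rat hζ hm, Polynomial.natDegree_cyclotomic]
  have hlin : LinearIndependent (IntermediateField.adjoin ℚ s)
      (fun i : Fin (minpoly ℚ ζ).natDegree => ζ ^ (i : ℕ)) := by
    rw [← LinearIndependent.iff_fractionRing (R := Algebra.adjoin ℚ s), Fintype.linearIndependent_iff]
    intro g hg
    have hP : ∀ i, ∃ P : MvPolynomial s ℚ, aeval (Subtype.val : s → K) P = g i := by
      intro i
      have h1 : ∀ x ∈ Algebra.adjoin ℚ s, ∃ P : MvPolynomial s ℚ,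
          aeval (Subtype.val : s → K) P = x := by
        intro x hx
        rw [Algebra.adjoin_eq_range] at hx
        exact hx
      exact h1 _ (g i).2
    choose P hP using hP
    have hmem : ζ ∈ F := IntermediateField.mem_adjoin_simple_self ℚ ζ
    let z : F := ⟨ζ, hmem⟩
    let Q : MvPolynomial s F := ∑ i : Fin (minpoly ℚ ζ).natDegree,
      C (z ^ (i : ℕ)) * map (algebraMap ℚ F) (P i)
    have hQ : aeval (Subtype.val : s → K) Q = 0 := by
      rw [← hg]
      simp only [Q, map_sum, map_mul]
      apply Finset.sum_congr rfl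
      intro i _
      have h2 : aeval (Subtype.val : s → K) (map (algebraMap ℚ F) (P i)) =
          aeval (Subtype.val : s → K) (P i) := by
        rw [aeval_map_algebraMap]
      rw [h2, hP, aeval_C]
      change ζ ^ (i : ℕ) * (g i : K) = (g i : K) * ζ ^ (i : ℕ)
      ring
    have hQ0 : Q = 0 := by
      apply hF
      rw [hQ, map_zero]
    intro i
    apply Subtype.ext
    rw [← hP i]
    have hPi : P i = 0 := by
      ext α
      have h3 := congrArg (coeff α) hQ0
      simp only [Q, coeff_sum, coeff_C_mul, coeff_map, coeff_zero] at h3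
      have h4 : ∑ j, (coeff α (P j)) • (ζ ^ (j : ℕ)) = 0 := by
        have h5 := congrArg (algebraMap F K) h3
        rw [map_sum, map_zero] at h5
        rw [← h5]
        apply Finset.sum_congr rfl
        intro j _
        rw [map_mul, map_pow, Algebra.smul_def, ← IsScalarTower.algebraMap_apply, mul_comm]
        rfl
      have h6 := (Fintype.linearIndependent_iff.1 (linearIndependent_pow (K := ℚ) ζ)) _ h4 i
      rw [h6, coeff_zero]
    rw [hPi]
    simp
  have h := hlin.fintype_card_le_finrank
  rwa [Fintype.card_fin, hdeg] at h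

theorem few_ess (K : Type) [Field K] [CharZero K] [Algebra.EssFiniteType ℚ K] : ∃ n, Few K n := by
  classical
  obtain ⟨s, hs⟩ := exists_isTranscendenceBasis ℚ K
  have h1 := hs.isAlgebraic_field
  rw [Subtype.range_coe] at h1
  have h2 : Algebra.EssFiniteType (IntermediateField.adjoin ℚ s) K := .of_comp ℚ _ K
  have h3 : Module.Finite (IntermediateField.adjoin ℚ s) K :=
    Algebra.finite_of_essFiniteType_of_isAlgebraic
  set d := Module.finrank (IntermediateField.adjoin ℚ s) K with hd
  have key : ∀ (x : K) (m : ℕ), 0 < m → x ^ m = 1 → x ^ ((2 * d).factorial) = 1 := by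
    intro x m hm hx
    have hfin : IsOfFinOrder x := isOfFinOrder_iff_pow_eq_one.2 ⟨m, hm, hx⟩
    have hpos : 0 < orderOf x := hfin.orderOf_pos
    have hprim : IsPrimitiveRoot x (orderOf x) := IsPrimitiveRoot.orderOf x
    rw [← orderOf_dvd_iff_pow_eq_one]
    rw [Nat.dvd_iff_prime_pow_dvd_dvd]
    intro p k hp hpk
    rcases Nat.eq_zero_or_pos k with rfl | hk
    · simp
    have hdpos : 0 < p ^ k := pow_pos hp.pos k
    obtain ⟨c, hc⟩ := hpk
    have hcpos : 0 < c := Nat.pos_of_ne_zero (by rintro rfl; omega)
    have h4 : IsPrimitiveRoot (x ^ c) (p ^ k) := by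
      apply hprim.pow hpos
      rw [hc, mul_comm]
    have h5 := tot_le s hs.1 (x ^ c) (p ^ k) hdpos h4
    rw [← hd, Nat.totient_prime_pow hp hk] at h5
    apply Nat.dvd_factorial hdpos
    have h6 : p ^ k = p ^ (k - 1) * p := by
      rw [← pow_succ, Nat.sub_add_cancel hk]
    have h7 : p ≤ 2 * (p - 1) := by
      have := hp.two_le
      omega
    calc p ^ k = p ^ (k - 1) * p := h6
      _ ≤ p ^ (k - 1) * (2 * (p - 1)) := Nat.mul_le_mul_left _ h7
      _ = 2 * (p ^ (k - 1) * (p - 1)) := by ring
      _ ≤ 2 * d := Nat.mul_le_mul_left _ h5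
  refine ⟨(2 * d).factorial, fun S hS => ?_⟩
  have hsub : S ⊆ (Polynomial.nthRoots (2 * d).factorial (1 : K)).toFinset := by
    intro x hx
    obtain ⟨m, hm, hxm⟩ := hS x hx
    rw [Multiset.mem_toFinset, Polynomial.mem_nthRoots (Nat.factorial_pos _)]
    exact key x m hm hxm
  exact (Finset.card_le_card hsub).trans ((Multiset.toFinset_card_le _).trans
    (Polynomial.card_nthRoots _ _))

theorem few_fg (K : Type) [Field K] [CharZero K] (S : Finset K) :
    ∃ n, Few (IntermediateField.adjoin ℚ (S : Set K)) n := by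
  have : Algebra.EssFiniteType ℚ (IntermediateField.adjoin ℚ (S : Set K)) :=
    IntermediateField.essFiniteType_iff.2 ⟨S, rfl⟩
  exact few_ess _

end Pool.Agent.J4.H41.PA
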