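import Pool.Agent.J4.H41.PA.Tree
import Pool.Agent.J4.H41.PA.Few

/-!
# Stabilizers of long paths in the tree of the automorphism group of `k[x, y]`
-/

set_option autoImplicit false

namespace Pool.Agent.J4.H41.PA

open MvPolynomial SimpleGraph
open Pool.Agent.H922R2
open Pool.Agent.Helper705_SA

variable {k : Type} [Field k]

theorem pderiv_uy (P : Polynomial k) : pderiv 0 (uy P) = 0 := by
  unfold uy
  rw [Derivation.map_aeval]
  simp

/-- evaluation at `x = 0` -/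
noncomputable def ev : MvPolynomial (Fin 2) k →ₐ[k] Polynomial k := aeval ![0, Polynomial.X]

theorem ev_uy (P : Polynomial k) : ev (uy P) = P := by
  unfold uy
  rw [← Polynomial.aeval_algHom_apply]
  simp [ev]

theorem ev_C (c : k) : ev (C c) = Polynomial.C c := by
  simp [ev]

theorem ev_X0 : ev (X 0 : MvPolynomial (Fin 2) k) = 0 := by simp [ev]
theorem ev_X1 : ev (X 1 : MvPolynomial (Fin 2) k) = Polynomial.X := by simp [ev]

theorem side_eq {e φ : GA k} {a0 b0 c0 α γ δ ε : k} {P : Polynomial k} (ha0 : a0 ≠ 0)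
    (he0 : e (X 0) = C a0 * X 0 + uy P) (he1 : e (X 1) = C b0 * X 1 + C c0)
    (hφ0 : φ (X 0) = C α * X 0 + C γ) (hφ1 : φ (X 1) = C δ * X 1 + C ε)
    (h : e⁻¹ * φ * e ∈ AG k) : ∃ q r s : k, (e⁻¹ * φ * e) (X 0) = C α * X 0 + C q * X 1 + C r ∧
      P.comp (Polynomial.C δ * Polynomial.X + Polynomial.C ε) =
        Polynomial.C α * P + Polynomial.C (q * b0) * Polynomial.X + Polynomial.C s := by
  obtain ⟨p, q, r, hp⟩ := mem_Wsub.1 (AG_forms h).1
  have h1 : φ (e (X 0)) = e ((e⁻¹ * φ * e) (X 0)) := by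
    change φ (e (X 0)) = e (e.symm (φ (e (X 0))))
    rw [AlgEquiv.apply_symm_apply]
  rw [hp, he0] at h1
  simp only [map_add, map_mul, ga_C, gmap_uy, he0, he1, hφ0, hφ1] at h1
  have h2 : Polynomial.aeval (C δ * X 1 + C ε : MvPolynomial (Fin 2) k) P =
      uy (P.comp (Polynomial.C δ * Polynomial.X + Polynomial.C ε)) := by
    rw [← uy_comp]
    congr 1
    simp [uy, algebraMap_eq]
  rw [h2] at h1
  have h3 := congrArg (pderiv 0) h1
  simp only [map_add, Derivation.leibniz, pderiv_C, pderiv_uy, pderiv_X_self, add_zero,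
    smul_eq_mul, mul_one, mul_zero, pderiv_X_of_ne (show (1 : Fin 2) ≠ 0 by decide)] at h3
  rw [← C_mul, ← C_mul, C_inj] at h3
  have h4 : p = α := by
    apply mul_right_cancel₀ ha0
    rw [← h3, mul_comm]
  subst h4
  have h5 := congrArg ev h1
  simp only [map_add, map_mul, ev_C, ev_uy, ev_X0, ev_X1, mul_zero, zero_add] at h5
  refine ⟨q, r, q * c0 + r - a0 * γ, hp, ?_⟩
  simp only [Polynomial.C_mul, Polynomial.C_add, Polynomial.C_sub]
  linear_combination h5

theorem side_pow {δ ε α q s : k} {P : Polynomial k} (hP : 2 ≤ P.natDegree) (hδ : δ ≠ 0)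
    (h : P.comp (Polynomial.C δ * Polynomial.X + Polynomial.C ε) =
        Polynomial.C α * P + Polynomial.C q * Polynomial.X + Polynomial.C s) :
    α = δ ^ P.natDegree := by
  have hd : (Polynomial.C δ * Polynomial.X + Polynomial.C ε).natDegree = 1 :=
    Polynomial.natDegree_linear hδ
  have hl : (Polynomial.C δ * Polynomial.X + Polynomial.C ε).leadingCoeff = δ :=
    Polynomial.leadingCoeff_linear hδ
  have h1 := Polynomial.leadingCoeff_comp (p := P)
    (q := Polynomial.C δ * Polynomial.X + Polynomial.C ε) (by rw [hd]; exact one_ne_zero)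
  rw [Polynomial.leadingCoeff, Polynomial.natDegree_comp, hd, mul_one, h, hl] at h1
  have h2 : (Polynomial.C α * P + Polynomial.C q * Polynomial.X + Polynomial.C s).coeff P.natDegree =
      α * P.leadingCoeff := by
    rw [Polynomial.coeff_add, Polynomial.coeff_add, Polynomial.coeff_C_mul, Polynomial.coeff_C_mul,
      Polynomial.coeff_X, Polynomial.coeff_C, if_neg (by omega), if_neg (by omega)]
    simp
  rw [h2] at h1
  have hlc : P.leadingCoeff ≠ 0 := by
    rw [Ne, Polynomial.leadingCoeff_eq_zero]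
    rintro rfl
    simp at hP
  apply mul_right_cancel₀ hlc
  rw [h1, mul_comm]

theorem side_one [CharZero k] {ε s : k} {P : Polynomial k} (hP : 2 ≤ P.natDegree)
    (h : P.comp (Polynomial.X + Polynomial.C ε) = P + Polynomial.C s) : ε = 0 := by
  by_contra hε
  have h1 : ∀ n : ℕ, P.eval (n * ε) = P.eval 0 + n * s := by
    intro n
    induction n with
    | zero => simp
    | succ n ih =>
      have h2 := congrArg (Polynomial.eval (n * ε)) h
      rw [Polynomial.eval_comp] at h2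
      simp only [Polynomial.eval_add, Polynomial.eval_X, Polynomial.eval_C] at h2
      have e1 : ((n + 1 : ℕ) : k) * ε = n * ε + ε := by push_cast; ring
      rw [e1, h2, ih]
      push_cast
      ring
  have h2 : P = Polynomial.C (s / ε) * Polynomial.X + Polynomial.C (P.eval 0) := by
    apply Polynomial.eq_of_infinite_eval_eq
    apply Set.infinite_of_injective_forall_mem (f := fun n : ℕ => (n : k) * ε)
    · intro a b hab
      have := mul_right_cancel₀ hε hab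
      exact_mod_cast this
    · intro n
      change P.eval (n * ε) = _
      rw [h1]
      simp
      field_simp
      ring
  have h3 : P.natDegree ≤ 1 := by
    rw [h2]
    exact Polynomial.natDegree_linear_le
  omega

/-- the second vertex of a side -/
theorem side_lin {ψ a : GA k} {α δ q r t p1 q1 r1 : k} (hp1 : p1 ≠ 0)
    (ha : a (X 1) = C p1 * X 0 + C q1 * X 1 + C r1)
    (h0 : ψ (X 0) = C α * X 0 + C q * X 1 + C r) (h1 : ψ (X 1) = C δ * X 1 + C t)
    (h : ∃ s t : k, (a⁻¹ * ψ * a) (X 1) = C s * X 1 + C t) : p1 * q + q1 * δ = α * q1 := by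
  obtain ⟨s, t', hs⟩ := h
  have h2 : ψ (a (X 1)) = a ((a⁻¹ * ψ * a) (X 1)) := by
    change ψ (a (X 1)) = a (a.symm (ψ (a (X 1))))
    rw [AlgEquiv.apply_symm_apply]
  rw [hs, ha] at h2
  simp only [map_add, map_mul, ga_C, h0, h1, ha] at h2
  have h3 := congrArg (pderiv 0) h2
  simp only [map_add, Derivation.leibniz, pderiv_C, pderiv_X_self, smul_zero, add_zero,
    zero_add, smul_eq_mul, mul_one, mul_zero, pderiv_X_of_ne (show (1 : Fin 2) ≠ 0 by decide)] at h3
  rw [← C_mul, ← C_mul, C_inj] at h3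
  have h4 : s = α := by
    apply mul_right_cancel₀ hp1
    rw [← h3, mul_comm]
  subst h4
  have h5 := congrArg (pderiv 1) h2
  simp only [map_add, Derivation.leibniz, pderiv_C, pderiv_X_self, smul_zero, add_zero,
    zero_add, smul_eq_mul, mul_one, mul_zero, pderiv_X_of_ne (show (0 : Fin 2) ≠ 1 by decide)] at h5
  rw [← C_mul, ← C_mul, ← C_add, ← C_mul, C_inj] at h5
  exact h5

/-- one side of a path: `φ` is in the stabilizers of `A`, `E`, `e A`, `e a E` -/
theorem side [CharZero k] {e a : GA k} (he : e ∈ EG k) (he' : e ∉ AG k) (ha : a ∈ AG k)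
    (ha' : a ∉ EG k) : ∃ m : ℕ, 2 ≤ m ∧ ∀ (φ : GA k) (α γ δ ε : k), δ ≠ 0 →
      φ (X 0) = C α * X 0 + C γ → φ (X 1) = C δ * X 1 + C ε →
      e⁻¹ * φ * e ∈ AG k → (e * a)⁻¹ * φ * (e * a) ∈ EG k → α = δ ^ m ∧ (δ = 1 → ε = 0) := by
  obtain ⟨a0, b0, c0, P, ha0, hb0, he0, he1⟩ := EG_forms he
  obtain ⟨p1, q1, r1, hp1, ha1⟩ := AG_not_EG ha ha'
  have hP := not_AG_deg he0 he1 he'
  refine ⟨P.natDegree, hP, ?_⟩
  intro φ α γ δ ε hδ hφ0 hφ1 h1 h2
  obtain ⟨q, r, s, hψ, hc⟩ := side_eq ha0 he0 he1 hφ0 hφ1 h1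
  have hα := side_pow hP hδ hc
  refine ⟨hα, ?_⟩
  rintro rfl
  rw [one_pow] at hα
  subst hα
  -- the linear part
  have h3 : ∃ t : k, (e⁻¹ * φ * e) (X 1) = C 1 * X 1 + C t := by
    refine ⟨b0 * ε, ?_⟩
    have h4 : e ((e⁻¹ * φ * e) (X 1)) = φ (e (X 1)) := by
      change e (e.symm (φ (e (X 1)))) = φ (e (X 1))
      rw [AlgEquiv.apply_symm_apply]
    apply e.injective
    rw [h4, he1]
    simp only [map_add, map_mul, ga_C, hφ1, he1, C_1, map_one]
    ring
  obtain ⟨t, ht⟩ := h3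
  have h5 := side_lin hp1 ha1 hψ ht (by
    have h6 : a⁻¹ * (e⁻¹ * φ * e) * a = (e * a)⁻¹ * φ * (e * a) := by group
    rw [h6]
    obtain ⟨-, s, t, -, -, -, -, h7⟩ := EG_forms h2
    exact ⟨s, t, h7⟩)
  have hq : q = 0 := by
    have h6 : p1 * q = 0 := by linear_combination h5
    rcases mul_eq_zero.1 h6 with h7 | h7
    · exact absurd h7 hp1
    · exact h7
  subst hq
  apply side_one hP (s := s)
  rw [Polynomial.C_1, one_mul, one_mul, zero_mul, Polynomial.C_0, zero_mul, add_zero] at hc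
  exact hc

theorem sw_inv : (sw : GA k)⁻¹ = sw := by
  apply inv_eq_of_mul_eq_one_left
  apply ga_ext
  · change sw (sw (X 0)) = X 0; rw [sw_sw]
  · change sw (sw (X 1)) = X 1; rw [sw_sw]

theorem sw_mul_sw : (sw : GA k) * sw = 1 := by
  have h := inv_mul_cancel (sw : GA k)
  rwa [sw_inv] at h

/-- the elements which fix a path of length 6 -/
theorem six [CharZero k] {n : ℕ} (hk : Few k n) {e a e' a' : GA k} (he : e ∈ EG k) (he1 : e ∉ AG k)
    (ha : a ∈ AG k) (ha1 : a ∉ EG k) (he' : e' ∈ EG k) (he1' : e' ∉ AG k)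
    (ha' : a' ∈ AG k) (ha1' : a' ∉ EG k) (F : Finset (GA k))
    (hF : ∀ φ ∈ F, φ ∈ EG k ∧ sw * φ * sw ∈ EG k ∧ e⁻¹ * φ * e ∈ AG k ∧
      (e * a)⁻¹ * φ * (e * a) ∈ EG k ∧ e'⁻¹ * (sw * φ * sw) * e' ∈ AG k ∧
      (e' * a')⁻¹ * (sw * φ * sw) * (e' * a') ∈ EG k) : F.card ≤ n := by
  classical
  obtain ⟨m, hm, h1⟩ := side he he1 ha ha1
  obtain ⟨m', hm', h1'⟩ := side he' he1' ha' ha1'
  -- the group of the elements with these properties
  let H : Subgroup (GA k) :=
    EG k ⊓ (EG k).map (MulAut.conj (sw : GA k)).toMonoidHom ⊓ (AG k).map (MulAut.conj e).toMonoidHom ⊓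
      (EG k).map (MulAut.conj (e * a)).toMonoidHom ⊓
      (AG k).map (MulAut.conj (sw * e')).toMonoidHom ⊓
      (EG k).map (MulAut.conj (sw * (e' * a'))).toMonoidHom
  have hmap : ∀ (K : Subgroup (GA k)) (g φ : GA k), φ ∈ K.map (MulAut.conj g).toMonoidHom ↔
      g⁻¹ * φ * g ∈ K := by
    intro K g φ
    constructor
    · rintro ⟨x, hx, rfl⟩
      have : g⁻¹ * (MulAut.conj g).toMonoidHom x * g = x := by
        change g⁻¹ * (g * x * g⁻¹) * g = x
        group
      rw [this]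
      exact hx
    · intro h
      refine ⟨_, h, ?_⟩
      change g * (g⁻¹ * φ * g) * g⁻¹ = φ
      group
  have hH : ∀ φ, φ ∈ H ↔ φ ∈ EG k ∧ sw * φ * sw ∈ EG k ∧ e⁻¹ * φ * e ∈ AG k ∧
      (e * a)⁻¹ * φ * (e * a) ∈ EG k ∧ e'⁻¹ * (sw * φ * sw) * e' ∈ AG k ∧
      (e' * a')⁻¹ * (sw * φ * sw) * (e' * a') ∈ EG k := by
    intro φ
    simp only [H, Subgroup.mem_inf, hmap]
    have e1 : (sw * e')⁻¹ * φ * (sw * e') = e'⁻¹ * (sw * φ * sw) * e' := by
      rw [mul_inv_rev, sw_inv]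
      simp only [mul_assoc]
    have e2 : (sw * (e' * a'))⁻¹ * φ * (sw * (e' * a')) =
        (e' * a')⁻¹ * (sw * φ * sw) * (e' * a') := by
      rw [mul_inv_rev sw, sw_inv]
      simp only [mul_assoc]
    rw [e1, e2, sw_inv]
    tauto
  -- the form of the elements
  have key : ∀ φ ∈ H, ∃ α γ δ ε : k, δ ≠ 0 ∧ φ (X 0) = C α * X 0 + C γ ∧
      φ (X 1) = C δ * X 1 + C ε ∧ (∃ m, 0 < m ∧ δ ^ m = 1) ∧ (δ = 1 → φ = 1) := by
    intro φ hφ
    obtain ⟨f1, f2, f3, f4, f5, f6⟩ := (hH φ).1 hφ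
    obtain ⟨-, δ, ε, -, -, hδ, -, hφ1⟩ := EG_forms f1
    obtain ⟨-, α, γ, -, -, hα, -, hs1⟩ := EG_forms f2
    have hφ0 : φ (X 0) = C α * X 0 + C γ := by
      have h2 : (sw * φ * sw : GA k) (X 1) = sw (φ (sw (X 1))) := rfl
      rw [h2, sw_X1] at hs1
      have h3 := congrArg sw hs1
      rw [sw_sw] at h3
      rw [h3, map_add, map_mul, ga_C, ga_C, sw_X1]
    have hs0 : (sw * φ * sw : GA k) (X 0) = C δ * X 0 + C ε := by
      change sw (φ (sw (X 0))) = _
      rw [sw_X0, hφ1, map_add, map_mul, ga_C, ga_C, sw_X1]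
    obtain ⟨g1, g2⟩ := h1 φ α γ δ ε hδ hφ0 hφ1 f3 f4
    obtain ⟨g3, g4⟩ := h1' (sw * φ * sw) δ ε α γ hα hs0 hs1 f5 f6
    refine ⟨α, γ, δ, ε, hδ, hφ0, hφ1, ⟨m * m' - 1, ?_, ?_⟩, ?_⟩
    · have : 4 ≤ m * m' := by nlinarith
      omega
    · have h4 : 4 ≤ m * m' := by nlinarith
      have h5 : δ * δ ^ (m * m' - 1) = δ * 1 := by
        rw [← pow_succ', Nat.sub_add_cancel (by omega), pow_mul, ← g1, ← g3, mul_one]
      exact mul_left_cancel₀ hδ h5
    · intro h2
      have h3 := g2 h2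
      have h4 : α = 1 := by rw [g1, h2, one_pow]
      have h5 := g4 h4
      apply ga_ext
      · rw [hφ0, h4, h5]; simp
      · rw [hφ1, h2, h3]; simp
  have hF' : ∀ φ ∈ F, φ ∈ H := fun φ h => (hH φ).2 (hF φ h)
  have hex : ∀ φ : GA k, ∃ δ : k, φ ∈ H → δ ≠ 0 ∧ (∃ m, 0 < m ∧ δ ^ m = 1) ∧
      ∃ ε : k, φ (X 1) = C δ * X 1 + C ε := by
    intro φ
    by_cases h : φ ∈ H
    · obtain ⟨α, γ, δ, ε, h2, -, h3, h4, -⟩ := key φ h
      exact ⟨δ, fun _ => ⟨h2, h4, ε, h3⟩⟩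
    · exact ⟨0, fun h' => absurd h' h⟩
  choose d hd using hex
  have hinj : Set.InjOn d F := by
    intro φ hφ ψ hψ hdd
    obtain ⟨h2, -, ε, h3⟩ := hd φ (hF' φ hφ)
    obtain ⟨h2', -, ε', h3'⟩ := hd ψ (hF' ψ hψ)
    have h4 : ψ⁻¹ * φ ∈ H := mul_mem (inv_mem (hF' ψ hψ)) (hF' φ hφ)
    obtain ⟨α, γ, δ, ε1, h5, h6, h7, h8, h9⟩ := key _ h4
    have h10 : ψ ((ψ⁻¹ * φ) (X 1)) = φ (X 1) := by
      change ψ (ψ.symm (φ (X 1))) = _
      rw [AlgEquiv.apply_symm_apply]
    rw [h7, map_add, map_mul, ga_C, ga_C, h3', h3, hdd] at h10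
    have h11 := congrArg (pderiv 1) h10
    simp only [map_add, Derivation.leibniz, pderiv_C, pderiv_X_self, add_zero,
      smul_eq_mul, mul_one, mul_zero] at h11
    rw [← C_mul, C_inj] at h11
    have h12 : δ = 1 := by
      apply mul_right_cancel₀ h2'
      rw [h11, one_mul]
    have h13 := h9 h12
    rw [inv_mul_eq_one] at h13
    exact h13.symm
  rw [← Finset.card_image_of_injOn hinj]
  apply hk
  intro x hx
  rw [Finset.mem_image] at hx
  obtain ⟨φ, hφ, rfl⟩ := hx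
  exact (hd φ (hF' φ hφ)).2.1

end Pool.Agent.J4.H41.PA
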