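import Pool.Agent.J4.H41.PA.Fgc
import Pool.Agent.J4.H41.PA.Few

/-!
# Descent to finitely generated fields
-/

set_option autoImplicit false

namespace Pool.Agent.J4.H41.PA

open MvPolynomial
open Pool.Agent.H922R2
open Pool.Agent.Y110.FJ (ClosedE)
open Pool.Agent.N509.TX (AcylF)
open Pool.Agent.R941.FJ (C_equiv C_le C_cyc mem_sup_normal)

section

variable {K : Type} [Field K] {L : Type} [Field L] (ι : L →+* K)

theorem lift_poly (p : MvPolynomial (Fin 2) K) (h : ∀ c ∈ p.coeffs, ∃ a : L, ι a = c) :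
    ∃ q : MvPolynomial (Fin 2) L, map ι q = p := by
  classical
  have h' : ∀ m, ∃ a : L, ι a = coeff m p := by
    intro m
    by_cases hm : coeff m p = 0
    · exact ⟨0, by rw [map_zero, hm]⟩
    · exact h _ (coeff_mem_coeffs m hm)
  choose a ha using h'
  refine ⟨∑ m ∈ p.support, monomial m (a m), ?_⟩
  rw [map_sum]
  conv_rhs => rw [p.as_sum]
  apply Finset.sum_congr rfl
  intro m _
  rw [map_monomial, ha]

theorem map_aeval' {φ : GA K} {P0 P1 : MvPolynomial (Fin 2) L} (h0 : map ι P0 = φ (X 0))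
    (h1 : map ι P1 = φ (X 1)) (q : MvPolynomial (Fin 2) L) :
    map ι (aeval ![P0, P1] q) = φ (map ι q) := by
  have : (map ι).comp (aeval ![P0, P1] : MvPolynomial (Fin 2) L →ₐ[L] _).toRingHom =
      (φ : MvPolynomial (Fin 2) K →+* MvPolynomial (Fin 2) K).comp (map ι) := by
    apply MvPolynomial.ringHom_ext
    · intro r
      change map ι (aeval ![P0, P1] (C r)) = φ (map ι (C r))
      rw [aeval_C, map_C, ga_C, algebraMap_eq, map_C]
    · intro i
      change map ι (aeval ![P0, P1] (X i)) = φ (map ι (X i))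
      rw [aeval_X, map_X]
      fin_cases i
      · exact h0
      · exact h1
  exact DFunLike.congr_fun this q

theorem exists_restr [DecidableEq K] (φ : GA K) (h : ∀ i, ∀ c ∈ (φ (X i)).coeffs ∪ (φ⁻¹ (X i)).coeffs,
    ∃ a : L, ι a = c) : ∃ ψ : GA L, ∀ p, φ (map ι p) = map ι (ψ p) := by
  obtain ⟨P0, h0⟩ := lift_poly ι (φ (X 0)) fun c hc => h 0 c (Finset.mem_union_left _ hc)
  obtain ⟨P1, h1⟩ := lift_poly ι (φ (X 1)) fun c hc => h 1 c (Finset.mem_union_left _ hc)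
  obtain ⟨Q0, g0⟩ := lift_poly ι (φ⁻¹ (X 0)) fun c hc => h 0 c (Finset.mem_union_right _ hc)
  obtain ⟨Q1, g1⟩ := lift_poly ι (φ⁻¹ (X 1)) fun c hc => h 1 c (Finset.mem_union_right _ hc)
  have hinj : Function.Injective (map (σ := Fin 2) ι) := map_injective _ ι.injective
  have e1 : ∀ p, φ (φ⁻¹ p) = p := fun p => φ.apply_symm_apply p
  have e2 : ∀ p, φ⁻¹ (φ p) = p := fun p => φ.symm_apply_apply p
  refine ⟨mkGA P0 P1 Q0 Q1 ?_ ?_ ?_ ?_, ?_⟩
  · apply hinj
    rw [map_aeval' ι h0 h1, g0, e1, map_X]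
  · apply hinj
    rw [map_aeval' ι h0 h1, g1, e1, map_X]
  · apply hinj
    rw [map_aeval' ι g0 g1, h0, e2, map_X]
  · apply hinj
    rw [map_aeval' ι g0 g1, h1, e2, map_X]
  · intro p
    change _ = map ι (aeval ![P0, P1] p)
    rw [map_aeval' ι h0 h1]

theorem ext_aeval {φ : GA L} (q : MvPolynomial (Fin 2) L) :
    aeval ![map ι (φ (X 0)), map ι (φ (X 1))] (map ι q) = map ι (φ q) := by
  have : ((aeval ![map ι (φ (X 0)), map ι (φ (X 1))] : MvPolynomial (Fin 2) K →ₐ[K] _).toRingHom).comp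
      (map ι) = (map ι).comp (φ : MvPolynomial (Fin 2) L →+* MvPolynomial (Fin 2) L) := by
    apply MvPolynomial.ringHom_ext
    · intro r
      change aeval ![map ι (φ (X 0)), map ι (φ (X 1))] (map ι (C r)) = map ι (φ (C r))
      rw [ga_C, map_C, aeval_C, algebraMap_eq]
    · intro i
      change aeval ![map ι (φ (X 0)), map ι (φ (X 1))] (map ι (X i)) = map ι (φ (X i))
      rw [map_X, aeval_X]
      fin_cases i
      · rfl
      · rfl
  exact DFunLike.congr_fun this q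

theorem exists_ext (φ : GA L) : ∃ ψ : GA K, ∀ p, ψ (map ι p) = map ι (φ p) := by
  have e1 : ∀ p, φ (φ⁻¹ p) = p := fun p => φ.apply_symm_apply p
  have e2 : ∀ p, φ⁻¹ (φ p) = p := fun p => φ.symm_apply_apply p
  refine ⟨mkGA (map ι (φ (X 0))) (map ι (φ (X 1))) (map ι (φ⁻¹ (X 0))) (map ι (φ⁻¹ (X 1))) ?_ ?_ ?_ ?_, ?_⟩
  · rw [ext_aeval, e1, map_X]
  · rw [ext_aeval, e1, map_X]
  · rw [ext_aeval, e2, map_X]
  · rw [ext_aeval, e2, map_X]
  · intro p
    change aeval ![map ι (φ (X 0)), map ι (φ (X 1))] (map ι p) = _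
    rw [ext_aeval]

/-- pairs of an element and an automorphism over the subfield which agree -/
def Gr {Γ : Type} [Group Γ] (f : Γ →* GA K) : Subgroup (Γ × GA L) where
  carrier := {x | ∀ p, f x.1 (map ι p) = map ι (x.2 p)}
  mul_mem' := by
    rintro ⟨a, φ⟩ ⟨b, ψ⟩ h1 h2 p
    change f (a * b) (map ι p) = map ι (φ (ψ p))
    have h2' : f b (map ι p) = map ι (ψ p) := h2 p
    have h1' : f a (map ι (ψ p)) = map ι (φ (ψ p)) := h1 (ψ p)
    rw [map_mul, AlgEquiv.mul_apply, h2', h1']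
  one_mem' := by
    intro p
    change f 1 (map ι p) = map ι p
    rw [map_one]
    rfl
  inv_mem' := by
    rintro ⟨a, φ⟩ h p
    change f a⁻¹ (map ι p) = map ι (φ.symm p)
    have h1 : f a (map ι (φ.symm p)) = map ι (φ (φ.symm p)) := h _
    rw [AlgEquiv.apply_symm_apply] at h1
    rw [← h1, map_inv]
    exact (f a).symm_apply_apply _

end

variable {Cl : ∀ (G : Type) [Group G], Prop}

theorem fst_inj {K L Γ : Type} [Field K] [Field L] (ι : L →+* K) [Group Γ] (f : Γ →* GA K) :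
    Function.Injective ((MonoidHom.fst Γ (GA L)).comp (Gr ι f).subtype) := by
  have hinj : Function.Injective (map (σ := Fin 2) ι) := map_injective _ ι.injective
  rw [injective_iff_map_eq_one]
  rintro ⟨⟨a, φ⟩, h⟩ ha
  change a = 1 at ha
  subst ha
  apply Subtype.ext
  refine Prod.ext rfl ?_
  change φ = 1
  have h2 : ∀ p, map ι (φ p) = map ι p := by
    intro p
    have h3 : f 1 (map ι p) = map ι (φ p) := h p
    rw [← h3, map_one]
    rfl
  ext1 p
  exact hinj (h2 p)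

theorem snd_inj {K L Γ : Type} [Field K] [Field L] (ι : L →+* K) [Group Γ] (f : Γ →* GA K)
    (hf : Function.Injective f) :
    Function.Injective ((MonoidHom.snd Γ (GA L)).comp (Gr ι f).subtype) := by
  rw [injective_iff_map_eq_one]
  rintro ⟨⟨a, φ⟩, h⟩ ha
  change φ = 1 at ha
  subst ha
  apply Subtype.ext
  refine Prod.ext ?_ rfl
  change a = 1
  apply hf
  rw [map_one]
  apply ga_ext
  · have h4 : f a (map ι (X 0)) = map ι ((1 : GA L) (X 0)) := h _
    rw [AlgEquiv.one_apply, map_X] at h4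
    rw [h4]
    rfl
  · have h4 : f a (map ι (X 1)) = map ι ((1 : GA L) (X 1)) := h _
    rw [AlgEquiv.one_apply, map_X] at h4
    rw [h4]
    rfl

theorem fst_surj {K L Γ : Type} [Field K] [DecidableEq K] [Field L] (ι : L →+* K) [Group Γ]
    (f : Γ →* GA K) (S : Set Γ) (hS : Subgroup.closure S = ⊤)
    (hco : ∀ s ∈ S, ∀ i, ∀ c ∈ ((f s) (X i)).coeffs ∪ ((f s)⁻¹ (X i)).coeffs, ∃ a : L, ι a = c) :
    Function.Surjective ((MonoidHom.fst Γ (GA L)).comp (Gr ι f).subtype) := by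
  rw [← MonoidHom.range_eq_top, eq_top_iff, ← hS, Subgroup.closure_le]
  intro s hs
  obtain ⟨ψ, hψ⟩ := exists_restr ι (f s) (hco s hs)
  exact ⟨⟨(s, ψ), hψ⟩, rfl⟩

theorem conj_desc {K L Γ : Type} [Field K] [Field L] (ι : L →+* K) [Group Γ]
    (f : Γ →* GA K) (g : GA L) (g' : GA K) (hg' : ∀ p, g' (map ι p) = map ι (g p))
    (a : Γ) (φ : GA L) (h : (a, φ) ∈ Gr ι f) (h5 : g⁻¹ * φ * g ∈ AG L) : g'⁻¹ * f a * g' ∈ AG K := by
  have hinv : ∀ p, g'⁻¹ (map ι p) = map ι (g⁻¹ p) := by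
    intro p
    have h5 := hg' (g⁻¹ p)
    have h6 : g (g⁻¹ p) = p := g.apply_symm_apply p
    rw [h6] at h5
    rw [← h5]
    exact g'.symm_apply_apply _
  have h6 : ∀ p, (g'⁻¹ * f a * g') (map ι p) = map ι ((g⁻¹ * φ * g) p) := by
    intro p
    change g'⁻¹ (f a (g' (map ι p))) = map ι (g⁻¹ (φ (g p)))
    have h7 : f a (map ι (g p)) = map ι (φ (g p)) := h _
    rw [hg', h7, hinv]
  have h8 : ∀ w ∈ Wsub L, map ι w ∈ Wsub K := by
    intro w hw
    obtain ⟨a, b, c, rfl⟩ := mem_Wsub.1 hw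
    rw [mem_Wsub]
    exact ⟨ι a, ι b, ι c, by simp⟩
  apply mem_AG_of
  · have h9 := h6 (X 0)
    rw [map_X] at h9
    rw [h9]
    exact h8 _ (AG_forms h5).1
  · have h9 := h6 (X 1)
    rw [map_X] at h9
    rw [h9]
    exact h8 _ (AG_forms h5).2

theorem map_desc {K L Γ : Type} [Field K] [Field L] (ι : L →+* K) [Group Γ]
    (f : Γ →* GA K) (e : Gr ι f ≃* Γ) (he : ∀ x, e x = x.1.1) (g : GA L) (g' : GA K)
    (hg' : ∀ p, g' (map ι p) = map ι (g p)) (H : Subgroup (Gr ι f))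
    (hH : ∀ h ∈ H, g⁻¹ * h.1.2 * g ∈ AG L) (y : Γ) (hy : y ∈ H.map e.toMonoidHom) :
    g'⁻¹ * f y * g' ∈ AG K := by
  obtain ⟨x, hx, rfl⟩ := hy
  have h7 : e.toMonoidHom x = x.1.1 := he x
  rw [h7]
  exact conj_desc ι f g g' hg' x.1.1 x.1.2 x.2 (hH x hx)

theorem C_fg_of (hC : ClosedE Cl) (hM : ∀ (G : Type) [Group G], derivedSeries G 2 = ⊥ → Cl G)
    (hA : AcylF Cl) {K L : Type} [Field K] [DecidableEq K] [Field L] [CharZero L]
    (ι : L →+* K) {n : ℕ} (hn : Few L n)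
    {Γ : Type} [Group Γ] (hfg : Group.FG Γ) (f : Γ →* GA K) (hf : Function.Injective f)
    (S : Set Γ) (hS : Subgroup.closure S = ⊤)
    (hco : ∀ s ∈ S, ∀ i, ∀ c ∈ ((f s) (X i)).coeffs ∪ ((f s)⁻¹ (X i)).coeffs, ∃ a : L, ι a = c)
    (hV : ∀ (g : GA K) (H : Subgroup Γ), (∀ h ∈ H, g⁻¹ * f h * g ∈ AG K) → Cl H) : Cl Γ := by
  obtain ⟨e, he⟩ : ∃ e : Gr ι f ≃* Γ, ∀ x, e x = x.1.1 :=
    ⟨MulEquiv.ofBijective _ ⟨fst_inj ι f, fst_surj ι f S hS hco⟩, fun x => rfl⟩
  refine C_equiv hC.base e.symm ?_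
  have hfgR : Group.FG (Gr ι f) := by
    have : Group.FG Γ := hfg
    exact Group.fg_of_surjective (f := e.symm.toMonoidHom) e.symm.surjective
  refine C_fgc hC hM hA hn hfgR _ (snd_inj ι f hf) ?_
  intro g H hH
  obtain ⟨g', hg'⟩ := exists_ext ι g
  have h1 := hV g' (H.map e.toMonoidHom) (map_desc ι f e he g g' hg' H hH)
  exact C_equiv hC.base (H.equivMapOfInjective e.toMonoidHom e.injective) h1

/-- finitely generated groups of automorphisms of `K[x, y]`, for any field of characteristic zero -/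
theorem C_fg (hC : ClosedE Cl) (hM : ∀ (G : Type) [Group G], derivedSeries G 2 = ⊥ → Cl G)
    (hA : AcylF Cl) {K : Type} [Field K] [CharZero K]
    {Γ : Type} [Group Γ] (hfg : Group.FG Γ) (f : Γ →* GA K)
    (hf : Function.Injective f)
    (hV : ∀ (g : GA K) (H : Subgroup Γ), (∀ h ∈ H, g⁻¹ * f h * g ∈ AG K) → Cl H) : Cl Γ := by
  classical
  obtain ⟨S, hS⟩ := hfg.out
  obtain ⟨T, hT⟩ : ∃ T : Finset K, T = S.biUnion fun s => Finset.univ.biUnion fun i : Fin 2 =>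
    ((f s) (X i)).coeffs ∪ ((f s)⁻¹ (X i)).coeffs := ⟨_, rfl⟩
  obtain ⟨n, hn⟩ := few_fg K T
  refine C_fg_of hC hM hA (algebraMap (IntermediateField.adjoin ℚ (T : Set K)) K) hn hfg f hf
    (S : Set Γ) hS ?_ hV
  intro s hs i c hc
  refine ⟨⟨c, IntermediateField.subset_adjoin _ _ ?_⟩, rfl⟩
  rw [Finset.mem_coe, hT, Finset.mem_biUnion]
  refine ⟨s, hs, ?_⟩
  rw [Finset.mem_biUnion]
  exact ⟨i, Finset.mem_univ _, hc⟩

/-- groups of automorphisms of `K[x, y]` -/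
theorem main (hC : ClosedE Cl) (hM : ∀ (G : Type) [Group G], derivedSeries G 2 = ⊥ → Cl G)
    (hA : AcylF Cl) {K : Type} [Field K] [CharZero K] (Γ : Subgroup (GA K))
    (hV : ∀ (g : GA K) (H : Subgroup (GA K)), H ≤ Γ → (∀ h ∈ H, g⁻¹ * h * g ∈ AG K) → Cl H) :
    Cl Γ := by
  refine Pool.Agent.N509.TX.of_fg hC fun H hH =>
    C_fg hC hM hA hH (Γ.subtype.comp H.subtype) (Γ.subtype_injective.comp H.subtype_injective) ?_
  intro g H' hH'
  refine C_equiv hC.base (H'.equivMapOfInjective (Γ.subtype.comp H.subtype)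
    (Γ.subtype_injective.comp H.subtype_injective)) ?_
  refine hV g _ ?_ ?_
  · rintro _ ⟨h, -, rfl⟩
    exact h.1.2
  · rintro _ ⟨h, hh, rfl⟩
    exact hH' h hh

/-- the automorphism group of `K[x, y]` -/
theorem main_GL (hC : ClosedE Cl) (hM : ∀ (G : Type) [Group G], derivedSeries G 2 = ⊥ → Cl G)
    (hA : AcylF Cl) {K : Type} [Field K] [CharZero K] (hG : Cl (Matrix (Fin 2) (Fin 2) K)ˣ) :
    Cl (GA K) := by
  refine C_equiv hC.base Subgroup.topEquiv.symm (main hC hM hA (⊤ : Subgroup (GA K)) ?_)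
  intro g H _ hH
  exact conjC hC (C_AG hC hM hG) g hH

end Pool.Agent.J4.H41.PA
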