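import Pool.Agent.J4.H41.PA.Tree
import Pool.Agent.N509.TX.Fg
import Pool.Agent.Y529.FJ.Ext

/-!
# The affine and the triangular group are Farrell-Jones groups
-/

set_option autoImplicit false

namespace Pool.Agent.J4.H41.PA

open MvPolynomial
open Pool.Agent.H922R2
open Pool.Agent.Y110.FJ (ClosedE)
open Pool.Agent.R941.FJ (C_equiv C_le C_cyc mem_sup_normal)

variable {Cl : ∀ (G : Type) [Group G], Prop}

/-- extensions with abelian kernels -/
theorem C_abker (hC : ClosedE Cl) (hM : ∀ (G : Type) [Group G], derivedSeries G 2 = ⊥ → Cl G)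
    {G H : Type} [Group G] [Group H] (f : G →* H)
    (hab : ∀ x y, f x = 1 → f y = 1 → x * y = y * x) (hH : Cl H) : Cl G := by
  have hN : Cl f.ker := hM _ (Pool.Agent.N509.TK.metab ⊤
    (fun x _ y _ => Subtype.ext (hab x y x.2 y.2)) (fun x y => Subgroup.mem_top _))
  refine Pool.Agent.Y529.FJ.t_ext Cl hC G f.ker hN ?_ ?_
  · exact hC.base.of_injective _ _ (QuotientGroup.kerLift f) (QuotientGroup.kerLift_injective f) hH
  · intro g _
    refine hM _ (Pool.Agent.N509.TK.metab (f.ker.subgroupOf _)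
      (fun x hx y hy => Subtype.ext (hab x y hx hy)) (fun x y => ?_))
    obtain ⟨x, hx⟩ := x
    obtain ⟨y, hy⟩ := y
    change f (x * y * x⁻¹ * y⁻¹) = 1
    rw [← commutatorElement_def, map_commutatorElement, commutatorElement_eq_one_iff_mul_comm]
    have key : ∀ z ∈ f.ker ⊔ Subgroup.zpowers g, f z ∈ Subgroup.zpowers (f g) := by
      intro z hz
      have h1 : (f.ker ⊔ Subgroup.zpowers g).map f = Subgroup.zpowers (f g) := by
        rw [Subgroup.map_sup, MonoidHom.map_zpowers]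
        rw [(Subgroup.map_eq_bot_iff f.ker).2 le_rfl, bot_sup_eq]
      rw [← h1]
      exact ⟨z, hz, rfl⟩
    obtain ⟨m, hm⟩ := key x hx
    obtain ⟨n, hn⟩ := key y hy
    rw [← hm, ← hn]
    exact (Commute.refl (f g)).zpow_zpow m n

theorem C_comm (hM : ∀ (G : Type) [Group G], derivedSeries G 2 = ⊥ → Cl G) (A : Type) [CommGroup A] :
    Cl A := hM _ (Pool.Agent.N509.TK.metab ⊤
    (fun x _ y _ => mul_comm x y) (fun x y => Subgroup.mem_top _))

variable {k : Type} [Field k]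

theorem AG_forms' {φ : GA k} (h : φ ∈ AG k) : ∃ a b c a' b' c' : k,
    φ (X 0) = C a * X 0 + C b * X 1 + C c ∧ φ (X 1) = C a' * X 0 + C b' * X 1 + C c' := by
  obtain ⟨a, b, c, h0⟩ := mem_Wsub.1 (AG_forms h).1
  obtain ⟨a', b', c', h1⟩ := mem_Wsub.1 (AG_forms h).2
  exact ⟨a, b, c, a', b', c', h0, h1⟩

theorem pd0 (a b c : k) : pderiv 0 (C a * X 0 + C b * X 1 + C c : MvPolynomial (Fin 2) k) = C a := by
  simp [pderiv_X_of_ne (show (1 : Fin 2) ≠ 0 by decide)]

theorem pd1 (a b c : k) : pderiv 1 (C a * X 0 + C b * X 1 + C c : MvPolynomial (Fin 2) k) = C b := by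
  simp [pderiv_X_of_ne (show (0 : Fin 2) ≠ 1 by decide)]

theorem form_comp {φ : GA k} {a b c a' b' c' : k}
    (h0 : φ (X 0) = C a * X 0 + C b * X 1 + C c) (h1 : φ (X 1) = C a' * X 0 + C b' * X 1 + C c')
    (p q r : k) : φ (C p * X 0 + C q * X 1 + C r) =
      C (p * a + q * a') * X 0 + C (p * b + q * b') * X 1 + C (p * c + q * c' + r) := by
  simp only [map_add, map_mul, ga_C, h0, h1]
  ring

/-- the linear part -/
noncomputable def lin : AG k →* Matrix (Fin 2) (Fin 2) k where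
  toFun φ := Matrix.of fun i j => eval 0 (pderiv i (φ.1 (X j)))
  map_one' := by
    ext i j
    change eval 0 (pderiv i (X j)) = (1 : Matrix (Fin 2) (Fin 2) k) i j
    rw [pderiv_X]
    by_cases h : i = j
    · subst h; simp
    · rw [Matrix.one_apply_ne h, Pi.single_eq_of_ne (Ne.symm h)]
      simp
  map_mul' := by
    rintro ⟨φ, hφ⟩ ⟨ψ, hψ⟩
    obtain ⟨a, b, c, a', b', c', h0, h1⟩ := AG_forms' hφ
    obtain ⟨p, q, r, p', q', r', g0, g1⟩ := AG_forms' hψ
    have e0 : (φ * ψ) (X 0) = φ (ψ (X 0)) := rfl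
    have e1 : (φ * ψ) (X 1) = φ (ψ (X 1)) := rfl
    rw [g0, form_comp h0 h1] at e0
    rw [g1, form_comp h0 h1] at e1
    ext i j
    rw [Matrix.mul_apply, Fin.sum_univ_two]
    change eval 0 (pderiv i ((φ * ψ) (X j))) = eval 0 (pderiv i (φ (X 0))) * eval 0 (pderiv 0 (ψ (X j))) +
      eval 0 (pderiv i (φ (X 1))) * eval 0 (pderiv 1 (ψ (X j)))
    fin_cases i <;> fin_cases j
    · change eval 0 (pderiv 0 ((φ * ψ) (X 0))) = eval 0 (pderiv 0 (φ (X 0))) * eval 0 (pderiv 0 (ψ (X 0))) +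
        eval 0 (pderiv 0 (φ (X 1))) * eval 0 (pderiv 1 (ψ (X 0)))
      rw [e0, h0, h1, g0, pd0, pd0, pd0, pd0, pd1]
      simp only [eval_C]
      ring
    · change eval 0 (pderiv 0 ((φ * ψ) (X 1))) = eval 0 (pderiv 0 (φ (X 0))) * eval 0 (pderiv 0 (ψ (X 1))) +
        eval 0 (pderiv 0 (φ (X 1))) * eval 0 (pderiv 1 (ψ (X 1)))
      rw [e1, h0, h1, g1, pd0, pd0, pd0, pd0, pd1]
      simp only [eval_C]
      ring
    · change eval 0 (pderiv 1 ((φ * ψ) (X 0))) = eval 0 (pderiv 1 (φ (X 0))) * eval 0 (pderiv 0 (ψ (X 0))) +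
        eval 0 (pderiv 1 (φ (X 1))) * eval 0 (pderiv 1 (ψ (X 0)))
      rw [e0, h0, h1, g0, pd1, pd1, pd1, pd0, pd1]
      simp only [eval_C]
      ring
    · change eval 0 (pderiv 1 ((φ * ψ) (X 1))) = eval 0 (pderiv 1 (φ (X 0))) * eval 0 (pderiv 0 (ψ (X 1))) +
        eval 0 (pderiv 1 (φ (X 1))) * eval 0 (pderiv 1 (ψ (X 1)))
      rw [e1, h0, h1, g1, pd1, pd1, pd1, pd0, pd1]
      simp only [eval_C]
      ring

theorem lin_ker {φ : AG k} (h : lin φ = 1) : ∃ c c' : k, φ.1 (X 0) = X 0 + C c ∧ φ.1 (X 1) = X 1 + C c' := by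
  obtain ⟨a, b, c, a', b', c', h0, h1⟩ := AG_forms' φ.2
  have e : ∀ i j, eval 0 (pderiv i (φ.1 (X j))) = (1 : Matrix (Fin 2) (Fin 2) k) i j :=
    fun i j => congrFun (congrFun h i) j
  have e00 := e 0 0
  have e01 := e 0 1
  have e10 := e 1 0
  have e11 := e 1 1
  rw [h0, pd0, eval_C] at e00
  rw [h1, pd0, eval_C] at e01
  rw [h0, pd1, eval_C] at e10
  rw [h1, pd1, eval_C] at e11
  simp at e00 e01 e10 e11
  subst e00 e01 e10 e11
  exact ⟨c, c', by rw [h0]; simp, by rw [h1]; simp⟩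

/-- the affine group -/
theorem C_AG (hC : ClosedE Cl) (hM : ∀ (G : Type) [Group G], derivedSeries G 2 = ⊥ → Cl G)
    (hG : Cl (Matrix (Fin 2) (Fin 2) k)ˣ) : Cl (AG k) := by
  refine C_abker hC hM (lin (k := k)).toHomUnits ?_ hG
  intro x y hx hy
  have hx' : lin x = 1 := by
    have := congrArg Units.val hx
    exact this
  have hy' : lin y = 1 := by
    have := congrArg Units.val hy
    exact this
  obtain ⟨c, c', h0, h1⟩ := lin_ker hx'
  obtain ⟨d, d', g0, g1⟩ := lin_ker hy'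
  apply Subtype.ext
  apply ga_ext
  · change x.1 (y.1 (X 0)) = y.1 (x.1 (X 0))
    rw [g0, h0, map_add, map_add, ga_C, ga_C, g0, h0]
    ring
  · change x.1 (y.1 (X 1)) = y.1 (x.1 (X 1))
    rw [g1, h1, map_add, map_add, ga_C, ga_C, g1, h1]
    ring

variable [CharZero k]

theorem EG_comp {φ ψ : GA k} {a b c a' b' c' : k} {P Q : Polynomial k}
    (h0 : φ (X 0) = C a * X 0 + uy P) (h1 : φ (X 1) = C b * X 1 + C c)
    (g0 : ψ (X 0) = C a' * X 0 + uy Q) (g1 : ψ (X 1) = C b' * X 1 + C c') :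
    (φ * ψ) (X 0) = C (a * a') * X 0 + uy (Polynomial.C a' * P +
      Q.comp (Polynomial.C b * Polynomial.X + Polynomial.C c)) ∧
      (φ * ψ) (X 1) = C (b * b') * X 1 + C (c' + c * b') := by
  constructor
  · change φ (ψ (X 0)) = _
    rw [g0, map_add, map_mul, ga_C, h0, gmap_uy, h1]
    have h2 : Polynomial.aeval (C b * X 1 + C c : MvPolynomial (Fin 2) k) Q =
        uy (Q.comp (Polynomial.C b * Polynomial.X + Polynomial.C c)) := by
      rw [← uy_comp]
      congr 1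
      simp [uy, algebraMap_eq]
    rw [h2]
    unfold uy
    simp only [map_add, map_mul, Polynomial.aeval_C, algebraMap_eq]
    ring
  · change φ (ψ (X 1)) = _
    rw [g1, map_add, map_mul, ga_C, h1, ga_C, C_add, C_mul, C_mul]
    ring

omit [CharZero k] in
theorem fa (a : k) (P : Polynomial k) : eval 0 (pderiv 0 (C a * X 0 + uy P)) = a := by
  have h : pderiv 0 (uy P) = 0 := by
    unfold uy
    rw [Derivation.map_aeval]
    simp
  rw [map_add, h]
  simp

omit [CharZero k] in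
theorem fb (b c : k) : eval 0 (pderiv 1 (C b * X 1 + C c : MvPolynomial (Fin 2) k)) = b := by
  simp

omit [CharZero k] in
theorem fc (b c : k) : eval 0 (C b * X 1 + C c : MvPolynomial (Fin 2) k) = c := by
  simp

/-- the coefficients of a triangular automorphism -/
noncomputable def tri : EG k →* Matrix (Fin 2) (Fin 2) k × k where
  toFun φ := (!![1, eval 0 (φ.1 (X 1)); 0, eval 0 (pderiv 1 (φ.1 (X 1)))],
    eval 0 (pderiv 0 (φ.1 (X 0))))
  map_one' := by
    refine Prod.ext ?_ ?_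
    · change !![1, eval 0 (X 1 : MvPolynomial (Fin 2) k); 0,
        eval 0 (pderiv 1 (X 1 : MvPolynomial (Fin 2) k))] = 1
      rw [pderiv_X_self, Matrix.one_fin_two]
      simp
    · change eval 0 (pderiv 0 (X 0 : MvPolynomial (Fin 2) k)) = 1
      rw [pderiv_X_self]
      simp
  map_mul' := by
    rintro ⟨φ, hφ⟩ ⟨ψ, hψ⟩
    obtain ⟨a, b, c, P, -, -, h0, h1⟩ := EG_forms hφ
    obtain ⟨a', b', c', Q, -, -, g0, g1⟩ := EG_forms hψ
    obtain ⟨e0, e1⟩ := EG_comp h0 h1 g0 g1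
    refine Prod.ext ?_ ?_
    · change !![1, eval 0 ((φ * ψ) (X 1)); 0, eval 0 (pderiv 1 ((φ * ψ) (X 1)))] =
        !![1, eval 0 (φ (X 1)); 0, eval 0 (pderiv 1 (φ (X 1)))] *
        !![1, eval 0 (ψ (X 1)); 0, eval 0 (pderiv 1 (ψ (X 1)))]
      rw [e1, h1, g1, fb, fb, fb, fc, fc, fc, Matrix.mul_fin_two]
      simp
    · change eval 0 (pderiv 0 ((φ * ψ) (X 0))) = eval 0 (pderiv 0 (φ (X 0))) *
        eval 0 (pderiv 0 (ψ (X 0)))
      rw [e0, h0, g0, fa, fa, fa]

theorem tri_ker {φ : EG k} (h : tri φ = 1) : ∃ P : Polynomial k, φ.1 (X 0) = X 0 + uy P ∧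
    φ.1 (X 1) = X 1 := by
  obtain ⟨a, b, c, P, -, -, h0, h1⟩ := EG_forms φ.2
  have e1 : !![1, eval 0 (φ.1 (X 1)); 0, eval 0 (pderiv 1 (φ.1 (X 1)))] =
    (1 : Matrix (Fin 2) (Fin 2) k) := congrArg Prod.fst h
  have e2 : eval 0 (pderiv 0 (φ.1 (X 0))) = 1 := congrArg Prod.snd h
  rw [h0, fa] at e2
  rw [h1, fb, fc] at e1
  have e3 := congrFun (congrFun e1 0) 1
  have e4 := congrFun (congrFun e1 1) 1
  simp at e3 e4
  subst e2 e3 e4
  exact ⟨P, by rw [h0]; simp, by rw [h1]; simp⟩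

/-- the triangular group -/
theorem C_EG (hC : ClosedE Cl) (hM : ∀ (G : Type) [Group G], derivedSeries G 2 = ⊥ → Cl G) :
    Cl (EG k) := by
  have h1 : Cl (tri (k := k)).toHomUnits.range := by
    let d : (Matrix (Fin 2) (Fin 2) k × k)ˣ →* kˣ × kˣ :=
      ((Units.map (Matrix.detMonoidHom.comp (MonoidHom.fst (Matrix (Fin 2) (Fin 2) k) k))).prod
        (Units.map (MonoidHom.snd (Matrix (Fin 2) (Fin 2) k) k)))
    refine C_abker hC hM (d.comp (tri (k := k)).toHomUnits.range.subtype) ?_ (C_comm hM _)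
    have key : ∀ x : (tri (k := k)).toHomUnits.range, d x = 1 → ∃ c : k,
        (x : (Matrix (Fin 2) (Fin 2) k × k)ˣ).val = (!![1, c; 0, 1], 1) := by
      rintro ⟨_, φ, rfl⟩ hx
      have h2 : ((tri (k := k)) φ).1.det = 1 := congrArg (fun u => (u.1 : k)) hx
      have h3 : ((tri (k := k)) φ).2 = 1 := congrArg (fun u => (u.2 : k)) hx
      have h4 : (!![1, eval 0 (φ.1 (X 1)); 0, eval 0 (pderiv 1 (φ.1 (X 1)))]).det = 1 := h2
      rw [Matrix.det_fin_two_of] at h4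
      simp only [one_mul, mul_zero, sub_zero] at h4
      refine ⟨eval 0 (φ.1 (X 1)), ?_⟩
      change (!![1, eval 0 (φ.1 (X 1)); 0, eval 0 (pderiv 1 (φ.1 (X 1)))],
        ((tri (k := k)) φ).2) = _
      rw [h4, h3]
    intro x y hx hy
    obtain ⟨c, hc⟩ := key x hx
    obtain ⟨c', hc'⟩ := key y hy
    apply Subtype.ext
    apply Units.ext
    change (x : (Matrix (Fin 2) (Fin 2) k × k)ˣ).val * (y : (Matrix (Fin 2) (Fin 2) k × k)ˣ).val =
      (y : (Matrix (Fin 2) (Fin 2) k × k)ˣ).val * (x : (Matrix (Fin 2) (Fin 2) k × k)ˣ).val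
    rw [hc, hc']
    refine Prod.ext ?_ rfl
    change !![1, c; 0, 1] * !![1, c'; 0, 1] = !![1, c'; 0, 1] * !![1, c; 0, 1]
    rw [Matrix.mul_fin_two, Matrix.mul_fin_two]
    simp [add_comm]
  refine C_abker hC hM (tri (k := k)).toHomUnits.rangeRestrict ?_ h1
  intro x y hx hy
  have hx' : tri x = 1 := congrArg (fun u => u.1.val) hx
  have hy' : tri y = 1 := congrArg (fun u => u.1.val) hy
  obtain ⟨P, h0, h1⟩ := tri_ker hx'
  obtain ⟨Q, g0, g1⟩ := tri_ker hy'
  apply Subtype.ext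
  apply ga_ext
  · change x.1 (y.1 (X 0)) = y.1 (x.1 (X 0))
    rw [g0, h0, map_add, map_add, gmap_uy, gmap_uy, g0, h0, g1, h1]
    unfold uy
    ring
  · change x.1 (y.1 (X 1)) = y.1 (x.1 (X 1))
    rw [g1, h1, g1]

end Pool.Agent.J4.H41.PA
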