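import Pool.Agent.J4.H41.PA.Path
import Pool.Agent.J4.H41.PA.Vert

/-!
# Finitely generated groups of automorphisms of `k[x, y]`, for `k` with finitely many roots of unity
-/

set_option autoImplicit false

namespace Pool.Agent.J4.H41.PA

open MvPolynomial SimpleGraph
open Pool.Agent.H922R2
open Pool.Agent.Helper705_SA
open Pool.Agent.Y110.FJ (ClosedE)
open Pool.Agent.N509.TX (AcylF)
open Pool.Agent.R941.FJ (C_equiv C_le C_cyc mem_sup_normal)

variable {Cl : ∀ (G : Type) [Group G], Prop}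

theorem conjC (hC : ClosedE Cl) {G : Type} [Group G] {A K : Subgroup G} (hA : Cl A) (g : G)
    (h : ∀ x ∈ K, g⁻¹ * x * g ∈ A) : Cl K := by
  refine hC.base.of_injective _ _ (((MulAut.conj g⁻¹).toMonoidHom.comp K.subtype).codRestrict A ?_) ?_ hA
  · rintro ⟨x, hx⟩
    have := h x hx
    change g⁻¹ * x * g⁻¹⁻¹ ∈ A
    rwa [inv_inv]
  · rintro ⟨x, hx⟩ ⟨y, hy⟩ hxy
    have h1 : g⁻¹ * x * g⁻¹⁻¹ = g⁻¹ * y * g⁻¹⁻¹ := congrArg Subtype.val hxy
    exact Subtype.ext (mul_left_cancel (mul_right_cancel h1))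

theorem C_fgc (hC : ClosedE Cl) (hM : ∀ (G : Type) [Group G], derivedSeries G 2 = ⊥ → Cl G)
    (hA : AcylF Cl) {k : Type} [Field k] [CharZero k]
    {n : ℕ} (hk : Few k n) {Γ : Type} [Group Γ] (hfg : Group.FG Γ) (f : Γ →* GA k)
    (hf : Function.Injective f)
    (hV : ∀ (g : GA k) (H : Subgroup Γ), (∀ h ∈ H, g⁻¹ * f h * g ∈ AG k) → Cl H) : Cl Γ := by
  classical
  let act : MulAction Γ (VT k) := MulAction.compHom _ f
  have hsm : ∀ (g : Γ) (x : VT k), g • x = f g • x := fun g x => rfl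
  refine hA Γ (VT k) (cosetGraph (AG k) (EG k)) hfg (tree k) ?_ ?_ ⟨7, n, ?_⟩ ?_
  · rintro g v w ⟨h, ⟨rfl, rfl⟩ | ⟨rfl, rfl⟩⟩
    · exact ⟨f g * h, Or.inl ⟨rfl, rfl⟩⟩
    · exact ⟨f g * h, Or.inr ⟨rfl, rfl⟩⟩
  · rintro g v w ⟨h, ⟨rfl, rfl⟩ | ⟨rfl, rfl⟩⟩ ⟨h1, h2⟩
    · cases h1
    · cases h1
  · intro u v p hp hlen F hF
    rw [← Finset.card_image_of_injective F hf]
    refine seven hk p hp hlen _ ?_
    intro φ hφ x hx
    rw [Finset.mem_image] at hφ
    obtain ⟨g, hg, rfl⟩ := hφ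
    exact hF g hg x hx
  · intro v
    rcases v with x | y
    · obtain ⟨g, rfl⟩ := QuotientGroup.mk_surjective x
      exact hV g _ fun h hh => fix_inl hh
    · obtain ⟨g, rfl⟩ := QuotientGroup.mk_surjective y
      -- the stabilizer embeds in the stabilizer in the whole group
      have key : Cl (MulAction.stabilizer (GA k) (Sum.inr (QuotientGroup.mk g) : VT k)) :=
        conjC hC (C_EG hC hM) g fun φ hφ => fix_inr hφ
      refine hC.base.of_injective _ _ ((f.comp (Subgroup.subtype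
        (MulAction.stabilizer Γ (Sum.inr (QuotientGroup.mk g) : VT k)))).codRestrict
        (MulAction.stabilizer (GA k) (Sum.inr (QuotientGroup.mk g) : VT k)) ?_) ?_ key
      · rintro ⟨y, hy⟩
        exact hy
      · rintro ⟨x, hx⟩ ⟨y, hy⟩ hxy
        exact Subtype.ext (hf (congrArg Subtype.val hxy))

end Pool.Agent.J4.H41.PA
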