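import Pool.Agent.J4.H41.PA.Desc

/-!
# The final statements
-/

set_option autoImplicit false

namespace Pool.Agent.J4.H41.PA

open MvPolynomial
open Pool.Agent.H922R2
open Pool.Agent.Y110.FJ (ClosedE)
open Pool.Agent.N509.TX (AcylF)
open Pool.Agent.R941.FJ (C_equiv C_le C_cyc mem_sup_normal)

theorem mem_Wsub_of_degree {k : Type} [Field k] {p : MvPolynomial (Fin 2) k}
    (h : p.totalDegree ≤ 1) : p ∈ Wsub k := by
  rw [p.as_sum]
  refine Submodule.sum_mem _ fun t ht => ?_
  have h1 : t.sum (fun _ e => e) ≤ 1 := (le_totalDegree ht).trans h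
  rw [Finsupp.sum_fintype _ _ (fun _ => rfl), Fin.sum_univ_two] at h1
  rw [mem_Wsub]
  have h2 : t = 0 ∨ t = Finsupp.single 0 1 ∨ t = Finsupp.single 1 1 := by
    rcases Nat.eq_zero_or_pos (t 0) with h3 | h3
    · rcases Nat.eq_zero_or_pos (t 1) with h4 | h4
      · left
        ext i
        fin_cases i
        · exact h3
        · exact h4
      · right; right
        ext i
        fin_cases i
        · change t 0 = Finsupp.single 1 1 0
          simp [h3]
        · change t 1 = Finsupp.single 1 1 1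
          simp
          omega
    · right; left
      ext i
      fin_cases i
      · change t 0 = Finsupp.single 0 1 0
        simp
        omega
      · change t 1 = Finsupp.single 0 1 1
        simp
        omega
  rcases h2 with rfl | rfl | rfl
  · exact ⟨0, 0, coeff 0 p, by simp⟩
  · refine ⟨coeff (Finsupp.single 0 1) p, 0, 0, ?_⟩
    rw [C_0, zero_mul, add_zero, add_zero, C_mul_X_eq_monomial]
  · refine ⟨0, coeff (Finsupp.single 1 1) p, 0, ?_⟩
    rw [C_0, zero_mul, zero_add, add_zero, C_mul_X_eq_monomial]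

theorem degree_of_mem_Wsub {k : Type} [Field k] {p : MvPolynomial (Fin 2) k}
    (h : p ∈ Wsub k) : p.totalDegree ≤ 1 := by
  obtain ⟨a, b, c, rfl⟩ := mem_Wsub.1 h
  refine (totalDegree_add _ _).trans (max_le ?_ (by rw [totalDegree_C]; omega))
  refine (totalDegree_add _ _).trans (max_le ?_ ?_)
  · refine (totalDegree_mul _ _).trans ?_
    rw [totalDegree_C, zero_add, totalDegree_X]
  · refine (totalDegree_mul _ _).trans ?_
    rw [totalDegree_C, zero_add, totalDegree_X]

/-- the affine group by degrees -/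
theorem mem_AG_iff {k : Type} [Field k] (φ : GA k) :
    φ ∈ AG k ↔ ∀ i, (φ (X i)).totalDegree ≤ 1 := by
  constructor
  · intro h i
    fin_cases i
    · exact degree_of_mem_Wsub (AG_forms h).1
    · exact degree_of_mem_Wsub (AG_forms h).2
  · intro h
    exact mem_AG_of (mem_Wsub_of_degree (h 0)) (mem_Wsub_of_degree (h 1))

section lg

variable {Cl : ∀ (G : Type) [Group G], Prop}

/-- restriction of scalars for matrices -/
noncomputable def resHom (L : Type) [Field L] [Algebra ℚ L] [Module.Finite ℚ L] (n : Type) [Fintype n]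
    [DecidableEq n] : Matrix n n L →* Matrix (Fin (Module.finrank ℚ (n → L)))
      (Fin (Module.finrank ℚ (n → L))) ℚ where
  toFun M := LinearMap.toMatrixAlgEquiv (Module.finBasis ℚ (n → L)) ((Matrix.toLin' M).restrictScalars ℚ)
  map_one' := by
    rw [Matrix.toLin'_one]
    exact map_one (LinearMap.toMatrixAlgEquiv (Module.finBasis ℚ (n → L)))
  map_mul' M N := by
    rw [Matrix.toLin'_mul, ← map_mul]
    rfl

theorem resHom_injective (L : Type) [Field L] [Algebra ℚ L] [Module.Finite ℚ L] (n : Type) [Fintype n]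
    [DecidableEq n] : Function.Injective (resHom L n) := by
  intro M N h
  have h1 := (LinearMap.toMatrixAlgEquiv (Module.finBasis ℚ (n → L))).injective h
  have h2 := LinearMap.restrictScalars_injective ℚ h1
  exact Matrix.toLin'.injective h2

theorem C_num (hC : ClosedE Cl) (hL : ∀ m : ℕ, Cl (Matrix.GeneralLinearGroup (Fin m) ℚ))
    (L : Type) [Field L] [Algebra ℚ L] [Module.Finite ℚ L] (n : Type) [Fintype n]
    [DecidableEq n] : Cl (Matrix n n L)ˣ :=
  hC.base.of_injective _ _ (Units.map (resHom L n)) (Units.map_injective (resHom_injective L n)) (hL _)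

/-- matrices with entries in a subfield -/
theorem ent_mem {K : Type} [Field K] [CharZero K] (L : IntermediateField ℚ K) (n : Type) [Fintype n]
    [DecidableEq n] (S : Set (Matrix n n K)ˣ)
    (hS : ∀ s ∈ S, ∀ i j, s.val i j ∈ L ∧ (s⁻¹).val i j ∈ L) (x : (Matrix n n K)ˣ)
    (hx : x ∈ Subgroup.closure S) : ∀ i j, x.val i j ∈ L ∧ (x⁻¹).val i j ∈ L := by
  induction hx using Subgroup.closure_induction with
  | mem y hy => exact hS y hy
  | one =>
    intro i j
    rw [inv_one]
    have : (1 : Matrix n n K) i j ∈ L := by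
      by_cases h : i = j
      · subst h
        rw [Matrix.one_apply_eq]
        exact one_mem _
      · rw [Matrix.one_apply_ne h]
        exact zero_mem _
    exact ⟨this, this⟩
  | mul a b _ _ ha hb =>
    intro i j
    rw [mul_inv_rev]
    constructor
    · change (a.val * b.val) i j ∈ L
      rw [Matrix.mul_apply]
      exact sum_mem fun l _ => mul_mem (ha i l).1 (hb l j).1
    · change ((b⁻¹).val * (a⁻¹).val) i j ∈ L
      rw [Matrix.mul_apply]
      exact sum_mem fun l _ => mul_mem (hb i l).2 (ha l j).2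
  | inv a _ ha =>
    intro i j
    rw [inv_inv]
    exact ⟨(ha i j).2, (ha i j).1⟩

/-- linear groups over the algebraic numbers -/
theorem C_alg (hC : ClosedE Cl) (hL : ∀ m : ℕ, Cl (Matrix.GeneralLinearGroup (Fin m) ℚ))
    (K : Type) [Field K] [CharZero K] (hK : Algebra.IsAlgebraic ℚ K) (n : Type) [Fintype n]
    [DecidableEq n] : Cl (Matrix n n K)ˣ := by
  classical
  refine Pool.Agent.N509.TX.of_fg hC fun H hH => ?_
  rw [Group.fg_iff_subgroup_fg] at hH
  obtain ⟨S, hS⟩ := hH
  obtain ⟨T, hT⟩ : ∃ T : Finset K, ∀ s ∈ S, ∀ i j, s.val i j ∈ T ∧ (s⁻¹).val i j ∈ T := by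
    refine ⟨S.biUnion fun s => Finset.univ.biUnion fun i : n =>
      Finset.univ.biUnion fun j : n => {s.val i j, (s⁻¹).val i j}, fun s hs i j => ⟨?_, ?_⟩⟩
    · simp only [Finset.mem_biUnion, Finset.mem_univ, true_and, Finset.mem_insert,
        Finset.mem_singleton]
      exact ⟨s, hs, i, j, Or.inl rfl⟩
    · simp only [Finset.mem_biUnion, Finset.mem_univ, true_and, Finset.mem_insert,
        Finset.mem_singleton]
      exact ⟨s, hs, i, j, Or.inr rfl⟩
  have hfin : Module.Finite ℚ (IntermediateField.adjoin ℚ (T : Set K)) :=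
    IntermediateField.finiteDimensional_adjoin fun x _ => (hK.isAlgebraic x).isIntegral
  obtain ⟨L, hLdef⟩ : ∃ L : IntermediateField ℚ K, L = IntermediateField.adjoin ℚ (T : Set K) :=
    ⟨_, rfl⟩
  rw [← hLdef] at hfin
  have hent : ∀ x ∈ H, ∀ i j, x.val i j ∈ L ∧ (x⁻¹).val i j ∈ L := by
    intro x hx
    rw [← hS] at hx
    have hsub : ∀ c ∈ T, c ∈ L := by
      intro c hc
      rw [hLdef]
      exact IntermediateField.subset_adjoin _ _ hc
    exact ent_mem L n (S : Set (Matrix n n K)ˣ)
      (fun s hs i j => ⟨hsub _ (hT s hs i j).1, hsub _ (hT s hs i j).2⟩) x hx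
  have hι : Function.Injective (algebraMap L K) := (algebraMap L K).injective
  have hmi : Function.Injective (Units.map (((algebraMap L K).mapMatrix :
      Matrix n n L →+* Matrix n n K).toMonoidHom)) := by
    apply Units.map_injective
    intro A B h
    exact Matrix.map_injective hι h
  have hle : H ≤ (Units.map (((algebraMap L K).mapMatrix :
      Matrix n n L →+* Matrix n n K).toMonoidHom)).range := by
    intro x hx
    let A : Matrix n n L := Matrix.of fun i j => ⟨x.val i j, (hent x hx i j).1⟩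
    let B : Matrix n n L := Matrix.of fun i j => ⟨(x⁻¹).val i j, (hent x hx i j).2⟩
    have hA : (algebraMap L K).mapMatrix A = x.val := by
      ext i j; rfl
    have hB : (algebraMap L K).mapMatrix B = (x⁻¹).val := by
      ext i j; rfl
    have hmm : Function.Injective ((algebraMap L K).mapMatrix : Matrix n n L →+* Matrix n n K) := by
      intro A B h
      exact Matrix.map_injective hι h
    refine ⟨⟨A, B, ?_, ?_⟩, ?_⟩
    · apply hmm
      rw [map_mul, hA, hB, map_one]
      exact x.mul_inv
    · apply hmm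
      rw [map_mul, hA, hB, map_one]
      exact x.inv_mul
    · apply Units.ext
      exact hA
  refine C_le hC.base hle ?_
  exact C_equiv hC.base (MonoidHom.ofInjective hmi).symm (C_num hC hL L n)

end lg

theorem final (Cl : ∀ (G : Type) [Group G], Prop) (hC : ClosedE Cl)
    (hM : ∀ (G : Type) [Group G], derivedSeries G 2 = ⊥ → Cl G) (hA : AcylF Cl)
    (K : Type) [Field K] [CharZero K]
    (Γ : Subgroup (MvPolynomial (Fin 2) K ≃ₐ[K] MvPolynomial (Fin 2) K))
    (hΓ : (∀ (g : MvPolynomial (Fin 2) K ≃ₐ[K] MvPolynomial (Fin 2) K)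
        (H : Subgroup (MvPolynomial (Fin 2) K ≃ₐ[K] MvPolynomial (Fin 2) K)), H ≤ Γ →
        (∀ h ∈ H, ∀ i : Fin 2, ((g⁻¹ * h * g) (X i)).totalDegree ≤ 1) → Cl H) ∨
      Cl (Matrix.GeneralLinearGroup (Fin 2) K) ∨
      ((∀ m : ℕ, Cl (Matrix.GeneralLinearGroup (Fin m) ℚ)) ∧ Algebra.IsAlgebraic ℚ K)) : Cl Γ := by
  rcases hΓ with h | h | ⟨h, hK⟩
  · refine main hC hM hA Γ fun g H hH hg => h g H hH fun x hx => ?_
    exact (mem_AG_iff _).1 (hg x hx)
  · exact hC.base.of_injective _ _ Γ.subtype Γ.subtype_injective (main_GL hC hM hA h)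
  · exact hC.base.of_injective _ _ Γ.subtype Γ.subtype_injective
      (main_GL hC hM hA (C_alg hC h K hK (Fin 2)))

end Pool.Agent.J4.H41.PA
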