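import Pool.Agent.Helper844_FA.JungLift

/-!
# Jung's theorem over any field of characteristic zero
-/

set_option autoImplicit false

namespace Pool.Agent.J4.H41.PA

open MvPolynomial
open Pool.Agent.H922R2
open Pool.Agent.Helper844_FA.JL

variable {k : Type} [Field k] [CharZero k]

theorem reduce2 (f : MvPolynomial (Fin 2) k) (hf : LN (DJ f)) (h0 : 0 < degreeOf 0 f)
    (h1 : 0 < degreeOf 1 f) :
    ∃ τ ∈ TG k, degreeOf 0 (τ f) + degreeOf 1 (τ f) < degreeOf 0 f + degreeOf 1 f := by
  set m := degreeOf 0 f with hm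
  set n := degreeOf 1 f with hn
  set g := Nat.gcd m n with hg
  have hgpos : 0 < g := Nat.gcd_pos_of_pos_left _ h0
  obtain ⟨m', hm'⟩ : g ∣ m := Nat.gcd_dvd_left m n
  obtain ⟨n', hn'⟩ : g ∣ n := Nat.gcd_dvd_right m n
  have hm'pos : 0 < m' := Nat.pos_of_ne_zero (by rintro rfl; omega)
  have hn'pos : 0 < n' := Nat.pos_of_ne_zero (by rintro rfl; omega)
  have hco : Nat.Coprime m' n' := by
    have h := Nat.coprime_div_gcd_div_gcd (m := m) (n := n) hgpos
    rw [← hg] at h
    rwa [Nat.div_eq_of_eq_mul_right hgpos hm', Nat.div_eq_of_eq_mul_right hgpos hn'] at h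
  rcases lead_one f hf g m' n' hgpos hm'pos hn'pos hco hm' hn' with h2 | h2
  · subst h2
    have e0 : degreeOf 0 (sw f) = n := by
      rw [degreeOf_sw]
      simp [hn]
    have e1 : degreeOf 1 (sw f) = m := by
      rw [degreeOf_sw]
      simp [hm]
    obtain ⟨P, h3, h4⟩ := reduce1' (sw f) (LN_map sw f hf) g n' hgpos hn'pos (by rw [e0, hn'])
      (by rw [e1, hm'])
    refine ⟨elemY P * sw, mul_mem (elemY_mem P) (AG_le sw_mem_AG), ?_⟩
    rw [AlgEquiv.mul_apply]
    omega
  · subst h2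
    obtain ⟨P, h3, h4⟩ := reduce1' f hf g m' hgpos hm'pos hm' hn'
    exact ⟨elemY P, elemY_mem P, by omega⟩

/-- Jung's theorem: the automorphism group of `k[x, y]` is generated by the affine and the triangular
automorphisms. -/
theorem TG_top : (TG k : Subgroup (GA k)) = ⊤ := by
  rw [eq_top_iff]
  intro φ _
  induction hN : degreeOf 0 (φ (X 0)) + degreeOf 1 (φ (X 0)) using Nat.strong_induction_on
    generalizing φ with
  | _ N ih =>
    by_cases h1 : degreeOf 1 (φ (X 0)) = 0
    · obtain ⟨a, b, ha, h⟩ := linear_of_pderiv (DJ_unit φ) (pderiv_of_degreeOf h1)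
      exact tame_of_linear ha h
    · by_cases h0 : degreeOf 0 (φ (X 0)) = 0
      · have h2 : degreeOf 1 (((sw : GA k) * φ) (X 0)) = 0 := by
          rw [AlgEquiv.mul_apply, degreeOf_sw]
          simpa using h0
        obtain ⟨a, b, ha, h⟩ := linear_of_pderiv (DJ_unit ((sw : GA k) * φ)) (pderiv_of_degreeOf h2)
        have h3 := tame_of_linear ha h
        have h4 : φ = (sw : GA k)⁻¹ * (sw * φ) := by group
        rw [h4]
        exact mul_mem (inv_mem (AG_le sw_mem_AG)) h3
      · obtain ⟨τ, hτ, h2⟩ := reduce2 (φ (X 0)) (LN_ga φ) (Nat.pos_of_ne_zero h0) (Nat.pos_of_ne_zero h1)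
        have h3 := ih _ (hN ▸ h2) (φ := τ * φ) trivial rfl
        have h4 : φ = τ⁻¹ * (τ * φ) := by group
        rw [h4]
        exact mul_mem (inv_mem hτ) h3

theorem AE_top : (AG k ⊔ EG k : Subgroup (GA k)) = ⊤ := TG_top

end Pool.Agent.J4.H41.PA
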