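import Pool.Agent.J4.H41.PA.Acyl

/-!
# The action of the automorphism group of `k[x, y]` on its tree is acylindrical
-/

set_option autoImplicit false

namespace Pool.Agent.J4.H41.PA

open MvPolynomial SimpleGraph
open Pool.Agent.H922R2
open Pool.Agent.Helper705_SA

variable {k : Type} [Field k] [CharZero k]

/-- the vertices of the tree -/
abbrev VT (k : Type) [Field k] : Type := (GA k ⧸ AG k) ⊕ (GA k ⧸ EG k)

omit [CharZero k] in
theorem fix_inl {g φ : GA k} (h : φ • (Sum.inl (QuotientGroup.mk g) : VT k) =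
    Sum.inl (QuotientGroup.mk g)) : g⁻¹ * φ * g ∈ AG k := by
  have h1 : (QuotientGroup.mk (φ * g) : GA k ⧸ AG k) = QuotientGroup.mk g := Sum.inl_injective h
  rw [eq_comm, QuotientGroup.eq] at h1
  rwa [mul_assoc]

omit [CharZero k] in
theorem fix_inr {g φ : GA k} (h : φ • (Sum.inr (QuotientGroup.mk g) : VT k) =
    Sum.inr (QuotientGroup.mk g)) : g⁻¹ * φ * g ∈ EG k := by
  have h1 : (QuotientGroup.mk (φ * g) : GA k ⧸ EG k) = QuotientGroup.mk g := Sum.inr_injective h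
  rw [eq_comm, QuotientGroup.eq] at h1
  rwa [mul_assoc]

omit [CharZero k] in
/-- the triangular group and the swap represent all cosets in the affine group -/
theorem sw_coset {a : GA k} (ha : a ∈ AG k) (ha' : a ∉ EG k) :
    ∃ b ∈ AG k, b ∈ EG k ∧ (b * sw)⁻¹ * a ∈ EG k := by
  obtain ⟨p, q, r, hp, h1⟩ := AG_not_EG ha ha'
  let b : GA k := mkGA (C p * X 0 + C q * X 1 + C r) (X 1)
    (C p⁻¹ * (X 0 - C q * X 1 - C r)) (X 1)
    (by
      simp only [map_mul, map_sub, aeval_C, aeval_X, algebraMap_eq, Matrix.cons_val_zero,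
        Matrix.cons_val_one]
      have : C p⁻¹ * (C p * X 0 + C q * X 1 + C r - C q * X 1 - C r) =
        (C p⁻¹ * C p) * (X 0 : MvPolynomial (Fin 2) k) := by ring
      rw [this, ← C_mul, inv_mul_cancel₀ hp, C_1, one_mul])
    (by simp)
    (by
      simp only [map_mul, map_add, aeval_C, aeval_X, algebraMap_eq, Matrix.cons_val_zero,
        Matrix.cons_val_one]
      have : C p * (C p⁻¹ * (X 0 - C q * X 1 - C r)) + C q * X 1 + C r =
        (C p * C p⁻¹) * (X 0 - C q * X 1 - C r : MvPolynomial (Fin 2) k) + C q * X 1 + C r := by ring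
      rw [this, ← C_mul, mul_inv_cancel₀ hp, C_1, one_mul]
      ring)
    (by simp)
  have hb0 : b (X 0) = C p * X 0 + C q * X 1 + C r := mkGA_X0 _ _ _ _ _ _ _ _
  have hb1 : b (X 1) = X 1 := mkGA_X1 _ _ _ _ _ _ _ _
  refine ⟨b, ?_, ?_, ?_⟩
  · apply mem_AG_of
    · rw [hb0, mem_Wsub]; exact ⟨p, q, r, rfl⟩
    · rw [hb1, mem_Wsub]; exact ⟨0, 1, 0, by simp⟩
  · apply mem_EG_of (b := 1) (c := 0) one_ne_zero
    rw [hb1]; simp
  · apply mem_EG_of (b := 1) (c := 0) one_ne_zero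
    have h2 : (b * sw : GA k) (X 1) = a (X 1) := by
      change b (sw (X 1)) = _
      rw [sw_X1, hb0, h1]
    change (b * sw : GA k).symm (a (X 1)) = _
    rw [← h2, AlgEquiv.symm_apply_apply]
    simp

/-- normal form of a nondegenerate pair of edges at a vertex of type `A` -/
theorem mid {x2 x3 x4 : VT k} {y2 : GA k ⧸ EG k} (h2 : x2 = Sum.inr y2)
    (h23 : (cosetGraph (AG k) (EG k)).Adj x2 x3) (h34 : (cosetGraph (AG k) (EG k)).Adj x3 x4)
    (hne : x2 ≠ x4) : ∃ g : GA k, x3 = Sum.inl (QuotientGroup.mk g) ∧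
      x4 = Sum.inr (QuotientGroup.mk g) ∧ x2 = Sum.inr (QuotientGroup.mk (g * sw)) := by
  subst h2
  obtain ⟨g2, hy2, rfl⟩ := adj_inr h23
  obtain ⟨g, hx, rfl⟩ := adj_inl h34
  rw [eq_comm, QuotientGroup.eq] at hx
  subst hy2
  obtain ⟨a, ha, rfl⟩ : ∃ a ∈ AG k, g2 = g * a := ⟨g⁻¹ * g2, hx, by group⟩
  have ha' : a ∉ EG k := by
    intro h
    apply hne
    congr 1
    rw [eq_comm, QuotientGroup.eq]
    simpa using h
  obtain ⟨b, hb, hb', hsw⟩ := sw_coset ha ha'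
  refine ⟨g * b, ?_, ?_, ?_⟩
  · congr 1
    rw [QuotientGroup.eq]
    have : (g * a)⁻¹ * (g * b) = a⁻¹ * b := by group
    rw [this]
    exact mul_mem (inv_mem ha) hb
  · congr 1
    rw [QuotientGroup.eq]
    simpa using hb'
  · congr 1
    rw [eq_comm, QuotientGroup.eq]
    have : (g * b * sw)⁻¹ * (g * a) = (b * sw)⁻¹ * a := by group
    rw [this]
    exact hsw

/-- the next two vertices -/
theorem out2 {x3 x4 x5 x6 : VT k} {g : GA k} (h3 : x3 = Sum.inl (QuotientGroup.mk g))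
    (h4 : x4 = Sum.inr (QuotientGroup.mk g))
    (h45 : (cosetGraph (AG k) (EG k)).Adj x4 x5) (h56 : (cosetGraph (AG k) (EG k)).Adj x5 x6)
    (hne : x3 ≠ x5) (hne' : x4 ≠ x6) : ∃ e a : GA k, e ∈ EG k ∧ e ∉ AG k ∧ a ∈ AG k ∧ a ∉ EG k ∧
      x5 = Sum.inl (QuotientGroup.mk (g * e)) ∧ x6 = Sum.inr (QuotientGroup.mk (g * (e * a))) := by
  subst h3 h4
  obtain ⟨g5, h5, rfl⟩ := adj_inr h45
  obtain ⟨g6, h6, rfl⟩ := adj_inl h56
  rw [QuotientGroup.eq] at h5 h6
  obtain ⟨e, he, rfl⟩ : ∃ e ∈ EG k, g5 = g * e := ⟨g⁻¹ * g5, h5, by group⟩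
  obtain ⟨a, ha, rfl⟩ : ∃ a ∈ AG k, g6 = g * (e * a) := ⟨(g * e)⁻¹ * g6, h6, by group⟩
  refine ⟨e, a, he, ?_, ha, ?_, rfl, rfl⟩
  · intro h
    apply hne
    congr 1
    rw [QuotientGroup.eq]
    simpa using h
  · intro h
    apply hne'
    congr 1
    rw [QuotientGroup.eq]
    simpa using mul_mem he h

theorem core {n : ℕ} (hk : Few k n) {x0 x1 x2 x3 x4 x5 x6 : VT k} {y0 : GA k ⧸ EG k}
    (h0 : x0 = Sum.inr y0)
    (h01 : (cosetGraph (AG k) (EG k)).Adj x0 x1) (h12 : (cosetGraph (AG k) (EG k)).Adj x1 x2)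
    (h23 : (cosetGraph (AG k) (EG k)).Adj x2 x3) (h34 : (cosetGraph (AG k) (EG k)).Adj x3 x4)
    (h45 : (cosetGraph (AG k) (EG k)).Adj x4 x5) (h56 : (cosetGraph (AG k) (EG k)).Adj x5 x6)
    (n02 : x0 ≠ x2) (n13 : x1 ≠ x3) (n24 : x2 ≠ x4) (n35 : x3 ≠ x5) (n46 : x4 ≠ x6)
    (F : Finset (GA k)) (hF : ∀ φ ∈ F, φ • x0 = x0 ∧ φ • x1 = x1 ∧ φ • x2 = x2 ∧ φ • x3 = x3 ∧
      φ • x4 = x4 ∧ φ • x5 = x5 ∧ φ • x6 = x6) : F.card ≤ n := by
  classical
  obtain ⟨y2, h2⟩ : ∃ y2, x2 = Sum.inr y2 := by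
    subst h0
    obtain ⟨g, -, rfl⟩ := adj_inr h01
    obtain ⟨g', -, rfl⟩ := adj_inl h12
    exact ⟨_, rfl⟩
  obtain ⟨g, hg3, hg4, hg2⟩ := mid h2 h23 h34 n24
  obtain ⟨e, a, he, he1, ha, ha1, h5, h6⟩ := out2 hg3 hg4 h45 h56 n35 n46
  have hg3' : x3 = Sum.inl (QuotientGroup.mk (g * sw)) := by
    rw [hg3]
    congr 1
    rw [QuotientGroup.eq]
    simpa using sw_mem_AG
  obtain ⟨e', a', he', he1', ha', ha1', h1, h0'⟩ := out2 hg3' hg2 h12.symm h01.symm n13.symm n02.symm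
  have hcard : (F.image (fun φ => g⁻¹ * φ * g)).card = F.card := by
    apply Finset.card_image_of_injective
    intro φ ψ h
    have h' : g⁻¹ * φ * g = g⁻¹ * ψ * g := h
    exact mul_left_cancel (mul_right_cancel h')
  rw [← hcard]
  apply six hk he he1 ha ha1 he' he1' ha' ha1'
  intro φ' hφ'
  rw [Finset.mem_image] at hφ'
  obtain ⟨φ, hφ, rfl⟩ := hφ'
  obtain ⟨f0, f1, f2, f3, f4, f5, f6⟩ := hF φ hφ
  rw [h0'] at f0
  rw [h1] at f1
  rw [hg2] at f2
  rw [hg4] at f4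
  rw [h5] at f5
  rw [h6] at f6
  have e1 := fix_inr f4
  have e2 := fix_inr f2
  have e3 := fix_inl f5
  have e4 := fix_inr f6
  have e5 := fix_inl f1
  have e6 := fix_inr f0
  refine ⟨e1, ?_, ?_, ?_, ?_, ?_⟩
  · have : sw * (g⁻¹ * φ * g) * sw = (g * sw)⁻¹ * φ * (g * sw) := by
      rw [mul_inv_rev, sw_inv]
      simp only [mul_assoc]
    rw [this]; exact e2
  · have : e⁻¹ * (g⁻¹ * φ * g) * e = (g * e)⁻¹ * φ * (g * e) := by group
    rw [this]; exact e3
  · have : (e * a)⁻¹ * (g⁻¹ * φ * g) * (e * a) = (g * (e * a))⁻¹ * φ * (g * (e * a)) := by group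
    rw [this]; exact e4
  · have : e'⁻¹ * (sw * (g⁻¹ * φ * g) * sw) * e' = (g * sw * e')⁻¹ * φ * (g * sw * e') := by
      rw [mul_inv_rev, mul_inv_rev, sw_inv]
      simp only [mul_assoc]
    rw [this]; exact e5
  · have : (e' * a')⁻¹ * (sw * (g⁻¹ * φ * g) * sw) * (e' * a') =
        (g * sw * (e' * a'))⁻¹ * φ * (g * sw * (e' * a')) := by
      rw [mul_inv_rev (g * sw), mul_inv_rev g, sw_inv]
      simp only [mul_assoc]
    rw [this]; exact e6

/-- acylindricity -/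
theorem seven {n : ℕ} (hk : Few k n) {u v : VT k} (p : (cosetGraph (AG k) (EG k)).Walk u v)
    (hp : p.IsPath) (hlen : 7 ≤ p.length) (F : Finset (GA k))
    (hF : ∀ φ ∈ F, ∀ x ∈ p.support, φ • x = x) : F.card ≤ n := by
  have six' : ∀ {u v : VT k} {y : GA k ⧸ EG k} (p : (cosetGraph (AG k) (EG k)).Walk u v),
      u = Sum.inr y → p.IsPath → 6 ≤ p.length → (∀ φ ∈ F, ∀ x ∈ p.support, φ • x = x) →
      F.card ≤ n := by
    intro u v y p hu hp hlen hF
    cases p with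
    | nil => exact absurd hlen (by simp)
    | @cons _ x1 _ h01 p =>
    cases p with
    | nil => exact absurd hlen (by simp)
    | @cons _ x2 _ h12 p =>
    cases p with
    | nil => exact absurd hlen (by simp)
    | @cons _ x3 _ h23 p =>
    cases p with
    | nil => exact absurd hlen (by simp)
    | @cons _ x4 _ h34 p =>
    cases p with
    | nil => exact absurd hlen (by simp)
    | @cons _ x5 _ h45 p =>
    cases p with
    | nil => exact absurd hlen (by simp)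
    | @cons _ x6 _ h56 p =>
    simp only [Walk.cons_isPath_iff, Walk.support_cons, List.mem_cons, not_or] at hp
    obtain ⟨⟨⟨⟨⟨⟨hp, q5⟩, q4⟩, q3⟩, q2⟩, q1⟩, q0⟩ := hp
    have m6 : x6 ∈ p.support := p.start_mem_support
    refine core hk hu h01 h12 h23 h34 h45 h56 q0.2.1 q1.2.1 q2.2.1 q3.2.1 ?_ F ?_
    · rintro rfl
      exact q4.2 m6
    · intro φ hφ
      have h := hF φ hφ
      simp only [Walk.support_cons, List.mem_cons] at h
      refine ⟨h _ (by tauto), h _ (by tauto), h _ (by tauto), h _ (by tauto), h _ (by tauto),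
        h _ (by tauto), h _ (by tauto)⟩
  rcases u with x | y
  · cases p with
    | nil => exact absurd hlen (by simp)
    | @cons _ x1 _ h01 p =>
    obtain ⟨g, -, hx1⟩ := adj_inl h01
    refine six' p hx1 hp.of_cons (by simpa using hlen) (fun φ hφ x hx => hF φ hφ x ?_)
    rw [Walk.support_cons]
    exact List.mem_cons_of_mem _ hx
  · exact six' p rfl hp (by omega) hF

end Pool.Agent.J4.H41.PA
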