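import Pool.Agent.J4.H41.PA.Jung
import Pool.Agent.H922R2.K15
import Pool.Agent.Helper705_SA.Amalg

/-!
# The tree of the automorphism group of `k[x, y]`
-/

set_option autoImplicit false

namespace Pool.Agent.J4.H41.PA

open MvPolynomial SimpleGraph
open Pool.Agent.H922R2
open Pool.Agent.Helper705_SA

/-- a graph with a height function such that every vertex has at most one neighbour which is not higher
is acyclic -/
theorem acyclic_of_height {V : Type*} (T : SimpleGraph V) (l : V → ℕ)
    (h : ∀ v u u', T.Adj v u → T.Adj v u' → l u ≤ l v → l u' ≤ l v → u = u') : T.IsAcyclic := by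
  classical
  intro v c hc
  obtain ⟨w, hw, hmax⟩ : ∃ w ∈ c.support, ∀ u ∈ c.support, l u ≤ l w := by
    have hne : c.support.toFinset.Nonempty := ⟨v, by simp⟩
    obtain ⟨w, hw, h⟩ := c.support.toFinset.exists_max_image l hne
    exact ⟨w, by simpa using hw, fun u hu => h u (by simpa using hu)⟩
  have hc' : (c.rotate w hw).IsCycle := hc.rotate hw
  have hmem : ∀ u, u ∈ (c.rotate w hw).support → u ∈ c.support := by
    intro u hu
    rwa [Walk.mem_support_rotate_iff] at hu
  have hnn : ¬ (c.rotate w hw).Nil := hc'.not_nil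
  have h1 := (c.rotate w hw).adj_snd hnn
  have h2 := ((c.rotate w hw).adj_penultimate hnn).symm
  have h3 := h w _ _ h1 h2 (hmax _ (hmem _ (Walk.getVert_mem_support _ _)))
    (hmax _ (hmem _ (Walk.getVert_mem_support _ _)))
  exact hc'.snd_ne_penultimate h3

variable {k : Type} [Field k]

theorem ga_C (θ : GA k) (c : k) : θ (C c) = C c := θ.commutes c

/-- the degree of the coset of the affine group -/
noncomputable def dA (θ : GA k) : ℕ := max (θ (X 0)).totalDegree (θ (X 1)).totalDegree

/-- the degree of the coset of the triangular group -/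
noncomputable def dE (θ : GA k) : ℕ := (θ (X 1)).totalDegree

theorem dE_pos (θ : GA k) : 0 < dE θ := by
  unfold dE
  by_contra h
  have h2 : (θ (X 1)).totalDegree = 0 := by omega
  rw [totalDegree_eq_zero_iff_eq_C] at h2
  have h3 := θ.injective (a₁ := X 1) (a₂ := C (coeff 0 (θ (X 1)))) (by rw [ga_C]; exact h2)
  have h4 := congrArg totalDegree h3
  rw [totalDegree_X, totalDegree_C] at h4
  omega

theorem td_W (θ : GA k) {w : MvPolynomial (Fin 2) k} (hw : w ∈ Wsub k) :
    (θ w).totalDegree ≤ dA θ := by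
  obtain ⟨a, b, c, rfl⟩ := mem_Wsub.1 hw
  rw [map_add, map_add, map_mul, map_mul, ga_C, ga_C, ga_C]
  refine (totalDegree_add _ _).trans (max_le ?_ (by rw [totalDegree_C]; omega))
  refine (totalDegree_add _ _).trans (max_le ?_ ?_)
  · refine (totalDegree_mul _ _).trans ?_
    rw [totalDegree_C, zero_add]
    exact le_max_left _ _
  · refine (totalDegree_mul _ _).trans ?_
    rw [totalDegree_C, zero_add]
    exact le_max_right _ _

theorem dA_mul_le (θ : GA k) {a : GA k} (ha : a ∈ AG k) : dA (θ * a) ≤ dA θ :=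
  max_le (td_W θ (AG_forms ha).1) (td_W θ (AG_forms ha).2)

theorem dA_mul (θ : GA k) {a : GA k} (ha : a ∈ AG k) : dA (θ * a) = dA θ := by
  apply le_antisymm (dA_mul_le θ ha)
  have h := dA_mul_le (θ * a) (inv_mem ha)
  rwa [mul_assoc, mul_inv_cancel, mul_one] at h

theorem dE_mul_le [CharZero k] (θ : GA k) {e : GA k} (he : e ∈ EG k) : dE (θ * e) ≤ dE θ := by
  obtain ⟨a, b, c, P, ha, hb, -, h1⟩ := EG_forms he
  unfold dE
  change (θ (e (X 1))).totalDegree ≤ _
  rw [h1, map_add, map_mul, ga_C, ga_C]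
  refine (totalDegree_add _ _).trans (max_le ?_ (by rw [totalDegree_C]; omega))
  refine (totalDegree_mul _ _).trans ?_
  rw [totalDegree_C, zero_add]

theorem dE_mul [CharZero k] (θ : GA k) {e : GA k} (he : e ∈ EG k) : dE (θ * e) = dE θ := by
  apply le_antisymm (dE_mul_le θ he)
  have h := dE_mul_le (θ * e) (inv_mem he)
  rwa [mul_assoc, mul_inv_cancel, mul_one] at h

/-- the height -/
noncomputable def ht : (GA k ⧸ AG k) ⊕ (GA k ⧸ EG k) → ℕ
  | Sum.inl x => 2 * dA x.out
  | Sum.inr y => 2 * dE y.out + 1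

theorem ht_inl (g : GA k) : ht (Sum.inl (QuotientGroup.mk g)) = 2 * dA g := by
  obtain ⟨a, ha⟩ := QuotientGroup.mk_out_eq_mul (AG k) g
  change 2 * dA (Quotient.out (QuotientGroup.mk g : GA k ⧸ AG k)) = _
  rw [ha, dA_mul g a.2]

theorem ht_inr [CharZero k] (g : GA k) : ht (Sum.inr (QuotientGroup.mk g)) = 2 * dE g + 1 := by
  obtain ⟨a, ha⟩ := QuotientGroup.mk_out_eq_mul (EG k) g
  change 2 * dE (Quotient.out (QuotientGroup.mk g : GA k ⧸ EG k)) + 1 = _
  rw [ha, dE_mul g a.2]

theorem not_AG_deg [CharZero k] {e : GA k} {a b c : k} {P : Polynomial k} (h0 : e (X 0) = C a * X 0 + uy P)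
    (h1 : e (X 1) = C b * X 1 + C c) (he : e ∉ AG k) : 2 ≤ P.natDegree := by
  by_contra hcon
  apply he
  apply mem_AG_of
  · rw [h0]
    have h1 : P.natDegree ≤ 1 := by omega
    rw [mem_Wsub]
    refine ⟨a, P.coeff 1, P.coeff 0, ?_⟩
    conv_lhs => rw [Polynomial.eq_X_add_C_of_natDegree_le_one h1]
    simp [uy, algebraMap_eq, add_assoc]
  · rw [h1, mem_Wsub]
    exact ⟨0, b, c, by simp⟩

theorem adj_inl {x : GA k ⧸ AG k} {u} (h : (cosetGraph (AG k) (EG k)).Adj (Sum.inl x) u) :
    ∃ g : GA k, x = QuotientGroup.mk g ∧ u = Sum.inr (QuotientGroup.mk g) := by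
  obtain ⟨g, ⟨h1, h2⟩ | ⟨h1, h2⟩⟩ := h
  · exact ⟨g, Sum.inl_injective h1, h2⟩
  · cases h2

theorem adj_inr {y : GA k ⧸ EG k} {u} (h : (cosetGraph (AG k) (EG k)).Adj (Sum.inr y) u) :
    ∃ g : GA k, y = QuotientGroup.mk g ∧ u = Sum.inl (QuotientGroup.mk g) := by
  obtain ⟨g, ⟨h1, h2⟩ | ⟨h1, h2⟩⟩ := h
  · cases h1
  · exact ⟨g, Sum.inr_injective h2, h1⟩

theorem ht_unique [CharZero k] (v u u' : (GA k ⧸ AG k) ⊕ (GA k ⧸ EG k))
    (h : (cosetGraph (AG k) (EG k)).Adj v u) (h' : (cosetGraph (AG k) (EG k)).Adj v u')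
    (hl : ht u ≤ ht v) (hl' : ht u' ≤ ht v) : u = u' := by
  rcases v with x | y
  · obtain ⟨g, rfl, rfl⟩ := adj_inl h
    obtain ⟨g', hx, rfl⟩ := adj_inl h'
    rw [QuotientGroup.eq] at hx
    obtain ⟨a, ha, rfl⟩ : ∃ a ∈ AG k, g' = g * a := ⟨g⁻¹ * g', hx, by group⟩
    rw [ht_inl, ht_inr] at hl hl'
    by_cases hae : a ∈ EG k
    · congr 1
      rw [QuotientGroup.eq]
      simpa using hae
    · exfalso
      obtain ⟨p, q, r, hp, hpq⟩ := AG_not_EG ha hae
      have h1 : dE g < dA g := by omega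
      have h0 : (g (X 0)).totalDegree = dA g := by
        unfold dA dE at *
        rcases max_choice (g (X 0)).totalDegree (g (X 1)).totalDegree with h2 | h2
        · exact h2.symm
        · omega
      have h2 : dE (g * a) = dA g := by
        unfold dE
        change (g (a (X 1))).totalDegree = _
        rw [hpq, map_add, map_add, map_mul, map_mul, ga_C, ga_C, ga_C, add_assoc,
          totalDegree_add_eq_left_of_totalDegree_lt, td_C_mul hp, h0]
        rw [td_C_mul hp, h0]
        refine lt_of_le_of_lt (totalDegree_add _ _) (max_lt ?_ (by rw [totalDegree_C]; omega))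
        refine lt_of_le_of_lt (totalDegree_mul _ _) ?_
        rw [totalDegree_C, zero_add]
        exact h1
      omega
  · obtain ⟨g, rfl, rfl⟩ := adj_inr h
    obtain ⟨g', hx, rfl⟩ := adj_inr h'
    rw [QuotientGroup.eq] at hx
    obtain ⟨e, he, rfl⟩ : ∃ a ∈ EG k, g' = g * a := ⟨g⁻¹ * g', hx, by group⟩
    rw [ht_inl, ht_inr] at hl hl'
    by_cases hae : e ∈ AG k
    · congr 1
      rw [QuotientGroup.eq]
      simpa using hae
    · exfalso
      obtain ⟨a, b, c, P, ha, hb, h0, h1⟩ := EG_forms he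
      have hP := not_AG_deg h0 h1 hae
      have hpos := dE_pos g
      have h2' : (g (X 0)).totalDegree ≤ dA g := le_max_left _ _
      have h2 : (g (X 0)).totalDegree ≤ dE g := by omega
      have h3 : ((g * e) (X 0)).totalDegree = P.natDegree * dE g := by
        change (g (e (X 0))).totalDegree = _
        rw [h0, map_add, map_mul, ga_C, gmap_uy,
          totalDegree_add_eq_right_of_totalDegree_lt, td_aeval rfl hpos]
        · rfl
        · rw [td_aeval rfl hpos, td_C_mul ha]
          change _ < P.natDegree * dE g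
          nlinarith
      have h4 : ((g * e) (X 0)).totalDegree ≤ dA (g * e) := le_max_left _ _
      rw [h3] at h4
      nlinarith

/-- the coset graph of the affine and the triangular group is a tree -/
theorem tree (k : Type) [Field k] [CharZero k] : (cosetGraph (AG k) (EG k)).IsTree :=
  ⟨cosetGraph_connected _ _ AE_top, acyclic_of_height _ ht ht_unique⟩

end Pool.Agent.J4.H41.PA
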